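import Pool.Agent.W133.DQ.StB
import Pool.Agent.W133.DQ.StC

set_option autoImplicit false

open scoped ContDiff
open Set Filter Topology

namespace Pool.Agent.W589.DQ.Corr

open Pool.Agent.W133.DQ

/-- jointly smooth family of diffeomorphisms. -/
def SF (F : ℝ → Equiv.Perm P2) : Prop :=
  ContDiff ℝ ∞ (fun q : ℝ × P2 => F q.1 q.2) ∧ ContDiff ℝ ∞ (fun q : ℝ × P2 => (F q.1)⁻¹ q.2)

theorem SF.mul {F G : ℝ → Equiv.Perm P2} (hF : SF F) (hG : SF G) : SF (fun t => F t * G t) := by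
  constructor
  · have : (fun q : ℝ × P2 => (F q.1 * G q.1) q.2) =
        (fun q : ℝ × P2 => F q.1 q.2) ∘ (fun q : ℝ × P2 => (q.1, G q.1 q.2)) := by
      funext q; rfl
    rw [this]
    exact hF.1.comp (contDiff_fst.prodMk hG.1)
  · have : (fun q : ℝ × P2 => (F q.1 * G q.1)⁻¹ q.2) =
        (fun q : ℝ × P2 => (G q.1)⁻¹ q.2) ∘ (fun q : ℝ × P2 => (q.1, (F q.1)⁻¹ q.2)) := by
      funext q
      simp [mul_inv_rev]
    rw [this]
    exact hG.2.comp (contDiff_fst.prodMk hF.2)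

theorem SF.inv {F : ℝ → Equiv.Perm P2} (hF : SF F) : SF (fun t => (F t)⁻¹) :=
  ⟨hF.2, by simpa using hF.1⟩

/-- global bound. -/
theorem bdd (R : ℝ) (g : ℝ × ℝ → ℝ) (hg : Continuous g) (h1 : ∀ t y, R ≤ |y| → g (t, y) = 0)
    (h2 : ∀ t y, t ≤ 0 → g (t, y) = 0) (h3 : ∀ t y, 1 ≤ t → g (t, y) = g (1, y)) :
    ∃ C : ℝ, 0 ≤ C ∧ ∀ t y, |g (t, y)| ≤ C := by
  have hK : IsCompact ((Icc (0 : ℝ) 1) ×ˢ (Icc (-R) R)) := isCompact_Icc.prod isCompact_Icc
  obtain ⟨C, hC⟩ := hK.exists_bound_of_continuousOn hg.continuousOn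
  refine ⟨max C 0, le_max_right _ _, ?_⟩
  have key : ∀ t y, t ∈ Icc (0 : ℝ) 1 → |g (t, y)| ≤ max C 0 := by
    intro t y ht
    by_cases hy : R ≤ |y|
    · rw [h1 t y hy, abs_zero]; exact le_max_right _ _
    · have hy' := abs_lt.1 (not_le.1 hy)
      have := hC (t, y) ⟨ht, ⟨hy'.1.le, hy'.2.le⟩⟩
      rw [Real.norm_eq_abs] at this
      exact this.trans (le_max_left _ _)
  intro t y
  rcases le_or_gt t 0 with ht | ht
  · rw [h2 t y ht, abs_zero]; exact le_max_right _ _
  · rcases le_or_gt 1 t with ht1 | ht1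
    · rw [h3 t y ht1]
      exact key 1 y ⟨zero_le_one, le_rfl⟩
    · exact key t y ⟨ht.le, ht1.le⟩

/-- the derivative of `smoothTransition` is bounded. -/
theorem st_deriv : ∃ D : ℝ, 0 ≤ D ∧ ∀ x, |deriv Real.smoothTransition x| ≤ D := by
  have hs : ContDiff ℝ ∞ Real.smoothTransition := Real.smoothTransition.contDiff
  have hc : Continuous (deriv Real.smoothTransition) := hs.continuous_deriv (by simp)
  obtain ⟨C, hC⟩ := (isCompact_Icc (a := (0 : ℝ)) (b := 1)).exists_bound_of_continuousOn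
    hc.continuousOn
  refine ⟨max C 0, le_max_right _ _, fun x => ?_⟩
  rcases lt_or_ge x 0 with hx | hx
  · have : Real.smoothTransition =ᶠ[𝓝 x] fun _ => (0 : ℝ) := by
      filter_upwards [Iio_mem_nhds hx] with z hz
      exact Real.smoothTransition.zero_of_nonpos (le_of_lt hz)
    rw [this.deriv_eq]
    simp
  · rcases lt_or_ge 1 x with hx1 | hx1
    · have : Real.smoothTransition =ᶠ[𝓝 x] fun _ => (1 : ℝ) := by
        filter_upwards [Ioi_mem_nhds hx1] with z hz
        exact Real.smoothTransition.one_of_one_le (le_of_lt hz)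
      rw [this.deriv_eq]
      simp
    · have := hC x ⟨hx, hx1⟩
      rw [Real.norm_eq_abs] at this
      exact this.trans (le_max_left _ _)

/-- the vertical derivative of `e` is positive. -/
theorem epos (X₀ : ℝ) (S : ℝ → Equiv.Perm P2)
    (hS : ContDiff ℝ ∞ (fun q : ℝ × P2 => S q.1 q.2))
    (hSi : ContDiff ℝ ∞ (fun q : ℝ × P2 => (S q.1)⁻¹ q.2))
    (h0 : ∀ t, t ≤ 0 → S t = 1)
    (hfar : ∀ t (p : P2), X₀ ≤ p.1 → S t p = ((S t (X₀, p.2)).1 + (p.1 - X₀), (S t (X₀, p.2)).2))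
    (t y : ℝ) : 0 < deriv (fun s => (S t (X₀, s)).2) y := by
  have hE : ContDiff ℝ ∞ (fun q : ℝ × ℝ => (S q.1 (X₀, q.2)).2) :=
    contDiff_snd.comp (hS.comp (contDiff_fst.prodMk (contDiff_const.prodMk contDiff_snd)))
  have hC : ContDiff ℝ ∞ (fun q : ℝ × ℝ => (S q.1 (X₀, q.2)).1) :=
    contDiff_fst.comp (hS.comp (contDiff_fst.prodMk (contDiff_const.prodMk contDiff_snd)))
  have hEt : ∀ t : ℝ, ContDiff ℝ ∞ (fun s : ℝ => (S t (X₀, s)).2) := fun t =>
    hE.comp (contDiff_const.prodMk contDiff_id)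
  have hCt : ∀ t : ℝ, ContDiff ℝ ∞ (fun s : ℝ => (S t (X₀, s)).1) := fun t =>
    hC.comp (contDiff_const.prodMk contDiff_id)
  have hder : ∀ t y : ℝ, deriv (fun s => (S t (X₀, s)).2) y =
      fderiv ℝ (fun q : ℝ × ℝ => (S q.1 (X₀, q.2)).2) (t, y) (0, 1) := by
    intro t y
    have h1 : HasFDerivAt (fun q : ℝ × ℝ => (S q.1 (X₀, q.2)).2)
        (fderiv ℝ (fun q : ℝ × ℝ => (S q.1 (X₀, q.2)).2) (t, y)) (t, y) :=
      (hE.differentiable (by simp)).differentiableAt.hasFDerivAt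
    have h2 : HasDerivAt (fun s : ℝ => (t, s)) ((0 : ℝ), (1 : ℝ)) y :=
      (hasDerivAt_const y t).prodMk (hasDerivAt_id' y)
    exact (h1.comp_hasDerivAt y h2).deriv
  have hne : ∀ t y : ℝ, deriv (fun s => (S t (X₀, s)).2) y ≠ 0 := by
    intro t y hz
    -- curve through (X₀+1, y)
    obtain ⟨a, ha⟩ : ∃ a : ℝ, a = deriv (fun s => (S t (X₀, s)).1) y := ⟨_, rfl⟩
    have hSt : ContDiff ℝ ∞ (fun p : P2 => S t p) := hS.comp (contDiff_const.prodMk contDiff_id)
    have hSit : ContDiff ℝ ∞ (fun p : P2 => (S t)⁻¹ p) :=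
      hSi.comp (contDiff_const.prodMk contDiff_id)
    -- curve γ(s) = (X₀ + 1 - a s, y + s)
    have hγ : HasDerivAt (fun s : ℝ => ((X₀ + 1 - a * s, y + s) : P2)) (-a, 1) 0 := by
      refine HasDerivAt.prodMk ?_ ?_
      · have := ((hasDerivAt_id' (0 : ℝ)).const_mul a).const_sub (X₀ + 1)
        simpa using this
      · simpa using (hasDerivAt_id' (0 : ℝ)).const_add y
    have hγc : ∀ᶠ s : ℝ in 𝓝 0, X₀ ≤ X₀ + 1 - a * s := by
      have : Tendsto (fun s : ℝ => X₀ + 1 - a * s) (𝓝 0) (𝓝 (X₀ + 1 - a * 0)) :=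
        Continuous.tendsto (by fun_prop) 0
      have h3 := this.eventually (Ioi_mem_nhds (show X₀ < X₀ + 1 - a * 0 by simp))
      exact h3.mono fun s hs => le_of_lt hs
    have hSγ : HasDerivAt (fun s : ℝ => S t ((X₀ + 1 - a * s, y + s) : P2)) ((0 : ℝ), (0 : ℝ)) 0 := by
      have e1 : (fun s : ℝ => S t ((X₀ + 1 - a * s, y + s) : P2)) =ᶠ[𝓝 0]
          fun s => ((S t (X₀, y + s)).1 + (X₀ + 1 - a * s - X₀), (S t (X₀, y + s)).2) := by
        filter_upwards [hγc] with s hs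
        exact hfar t _ hs
      refine HasDerivAt.congr_of_eventuallyEq ?_ e1
      refine HasDerivAt.prodMk ?_ ?_
      · have h4 : HasDerivAt (fun s : ℝ => (S t (X₀, y + s)).1) a 0 := by
          have h5 : HasDerivAt (fun s => (S t (X₀, s)).1) a (y + 0) := by
            rw [ha, add_zero]
            exact ((hCt t).differentiable (by simp)).differentiableAt.hasDerivAt
          have h6 := h5.comp_const_add y 0
          exact h6
        have h7 : HasDerivAt (fun s : ℝ => X₀ + 1 - a * s - X₀) (-a) 0 := by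
          have := (((hasDerivAt_id' (0 : ℝ)).const_mul a).const_sub (X₀ + 1)).sub_const X₀
          simpa using this
        have h8 := h4.add h7
        rw [add_neg_cancel] at h8
        exact h8
      · have h5 : HasDerivAt (fun s => (S t (X₀, s)).2) 0 (y + 0) := by
          rw [add_zero, ← hz]
          exact ((hEt t).differentiable (by simp)).differentiableAt.hasDerivAt
        exact h5.comp_const_add y 0
    have hcomp : HasDerivAt (fun s : ℝ => (S t)⁻¹ (S t ((X₀ + 1 - a * s, y + s) : P2)))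
        (0 : P2) 0 := by
      have h9 : HasFDerivAt (fun p : P2 => (S t)⁻¹ p)
          (fderiv ℝ (fun p : P2 => (S t)⁻¹ p) (S t ((X₀ + 1 - a * 0, y + 0) : P2)))
          (S t ((X₀ + 1 - a * 0, y + 0) : P2)) :=
        (hSit.differentiable (by simp)).differentiableAt.hasFDerivAt
      have h10 := h9.comp_hasDerivAt (0 : ℝ) hSγ
      have h11 : fderiv ℝ (fun p : P2 => (S t)⁻¹ p) (S t ((X₀ + 1 - a * 0, y + 0) : P2))
          ((0 : ℝ), (0 : ℝ)) = 0 := map_zero _
      rw [h11] at h10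
      exact h10
    have hid : (fun s : ℝ => (S t)⁻¹ (S t ((X₀ + 1 - a * s, y + s) : P2))) =
        fun s : ℝ => ((X₀ + 1 - a * s, y + s) : P2) := by
      funext s
      exact (S t).symm_apply_apply _
    rw [hid] at hcomp
    have := hcomp.unique hγ
    have h12 := congrArg Prod.snd this
    simp at h12
  by_contra hneg
  have hcont : Continuous (fun q : ℝ × ℝ => deriv (fun s => (S q.1 (X₀, s)).2) q.2) := by
    have : (fun q : ℝ × ℝ => deriv (fun s => (S q.1 (X₀, s)).2) q.2) =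
        fun q : ℝ × ℝ => fderiv ℝ (fun q : ℝ × ℝ => (S q.1 (X₀, q.2)).2) q (0, 1) := by
      funext q
      exact hder q.1 q.2
    rw [this]
    exact (hE.continuous_fderiv (by simp)).clm_apply continuous_const
  have hone : deriv (fun s => (S 0 (X₀, s)).2) 0 = 1 := by
    have : (fun s : ℝ => (S 0 (X₀, s)).2) = fun s => s := by
      funext s
      rw [h0 0 le_rfl]
      rfl
    rw [this]
    simp
  obtain ⟨q, hq⟩ := mem_range_of_exists_le_of_exists_ge hcont (c := 0)
    ⟨(t, y), not_lt.1 hneg⟩ ⟨((0 : ℝ), (0 : ℝ)), by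
      show (0 : ℝ) ≤ deriv (fun s => (S 0 (X₀, s)).2) 0
      rw [hone]; exact zero_le_one⟩
  exact hne q.1 q.2 hq

end Pool.Agent.W589.DQ.Corr

namespace Pool.Agent.W589.DQ

open Pool.Agent.W133.DQ Corr

theorem corr (hL : S_LPINV) : S_CORR := by
  intro R X₀ S hR hX hS hSi hfix h0 h1 hXr hfar
  -- e and c
  obtain ⟨e, he⟩ : ∃ e : ℝ × ℝ → ℝ, ∀ t y, e (t, y) = (S t (X₀, y)).2 :=
    ⟨fun q => (S q.1 (X₀, q.2)).2, fun _ _ => rfl⟩
  obtain ⟨c, hc⟩ : ∃ c : ℝ × ℝ → ℝ, ∀ t y, c (t, y) = (S t (X₀, y)).1 - X₀ :=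
    ⟨fun q => (S q.1 (X₀, q.2)).1 - X₀, fun _ _ => rfl⟩
  have hSX : ContDiff ℝ ∞ (fun q : ℝ × ℝ => S q.1 (X₀, q.2)) :=
    hS.comp (contDiff_fst.prodMk (contDiff_const.prodMk contDiff_snd))
  have heS : ContDiff ℝ ∞ e := by
    have : e = fun q => (S q.1 (X₀, q.2)).2 := by funext q; exact he q.1 q.2
    rw [this]
    exact contDiff_snd.comp hSX
  have hcS : ContDiff ℝ ∞ c := by
    have : c = fun q => (S q.1 (X₀, q.2)).1 - X₀ := by funext q; exact hc q.1 q.2
    rw [this]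
    exact (contDiff_fst.comp hSX).sub contDiff_const
  have heR : ∀ t y, R ≤ |y| → e (t, y) = y := by
    intro t y hy
    rw [he, hfix t (X₀, y) (Or.inr hy)]
  have hcR : ∀ t y, R ≤ |y| → c (t, y) = 0 := by
    intro t y hy
    rw [hc, hfix t (X₀, y) (Or.inr hy)]
    simp
  have he0 : ∀ t y, t ≤ 0 → e (t, y) = y := by
    intro t y ht
    rw [he, h0 t ht]
    rfl
  have hc0 : ∀ t y, t ≤ 0 → c (t, y) = 0 := by
    intro t y ht
    rw [hc, h0 t ht]
    simp
  have he1 : ∀ t y, 1 ≤ t → e (t, y) = e (1, y) := by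
    intro t y ht
    rw [he, he, h1 t ht]
  have hc1 : ∀ t y, 1 ≤ t → c (t, y) = c (1, y) := by
    intro t y ht
    rw [hc, hc, h1 t ht]
  have hfar' : ∀ t (p : P2), X₀ ≤ p.1 → S t p = (p.1 + c (t, p.2), e (t, p.2)) := by
    intro t p hp
    rw [hfar t p hp, hc, he]
    ext
    · simp only; ring
    · rfl
  have hepos : ∀ t y, 0 < deriv (fun s => e (t, s)) y := by
    intro t y
    have := epos X₀ S hS hSi h0 hfar t y
    have h2 : (fun s => e (t, s)) = fun s => (S t (X₀, s)).2 := by funext s; exact he t s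
    rw [h2]
    exact this
  have heT : ∀ t, ContDiff ℝ ∞ (fun s => e (t, s)) := fun t =>
    heS.comp (contDiff_const.prodMk contDiff_id)
  have hed : ∀ t y, HasDerivAt (fun s => e (t, s)) (deriv (fun s => e (t, s)) y) y := fun t y =>
    ((heT t).differentiable (by simp)).differentiableAt.hasDerivAt
  -- bounds
  obtain ⟨C, hC0, hC⟩ := bdd R c hcS.continuous hcR hc0 hc1
  obtain ⟨E, hE0, hE⟩ := bdd R (fun q => e q - q.2) (heS.continuous.sub continuous_snd)
    (fun t y hy => by simp only; rw [heR t y hy, sub_self])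
    (fun t y hy => by simp only; rw [he0 t y hy, sub_self])
    (fun t y hy => by simp only; rw [he1 t y hy])
  simp only at hE
  obtain ⟨D, hD0, hD⟩ := st_deriv
  -- cutoffs
  obtain ⟨k1, hk1⟩ : ∃ k1 : ℝ → ℝ, ∀ x, k1 x = Real.smoothTransition (x - X₀) :=
    ⟨fun x => Real.smoothTransition (x - X₀), fun _ => rfl⟩
  have hk1S : ContDiff ℝ ∞ k1 := by
    have : k1 = fun x => Real.smoothTransition (x - X₀) := by funext x; exact hk1 x
    rw [this]
    exact Real.smoothTransition.contDiff.comp (contDiff_id.sub contDiff_const)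
  have hk1n : ∀ x, 0 ≤ k1 x := fun x => by rw [hk1]; exact Real.smoothTransition.nonneg _
  have hk1l : ∀ x, k1 x ≤ 1 := fun x => by rw [hk1]; exact Real.smoothTransition.le_one _
  have hk1z : ∀ x, x ≤ X₀ → k1 x = 0 := fun x hx => by
    rw [hk1]; exact Real.smoothTransition.zero_of_nonpos (by linarith)
  have hk1o : ∀ x, X₀ + 1 ≤ x → k1 x = 1 := fun x hx => by
    rw [hk1]; exact Real.smoothTransition.one_of_one_le (by linarith)
  obtain ⟨Lg, hLg⟩ : ∃ Lg : ℝ, Lg = 2 * (D * C) + 1 := ⟨_, rfl⟩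
  have hDC : 0 ≤ D * C := mul_nonneg hD0 hC0
  have hLpos : 0 < Lg := by rw [hLg]; linarith
  obtain ⟨k2, hk2⟩ : ∃ k2 : ℝ → ℝ, ∀ x, k2 x = Real.smoothTransition ((x - (X₀ + 1)) / Lg) :=
    ⟨fun x => Real.smoothTransition ((x - (X₀ + 1)) / Lg), fun _ => rfl⟩
  have hk2f : k2 = fun x => Real.smoothTransition ((x - (X₀ + 1)) / Lg) := by
    funext x; exact hk2 x
  have hk2S : ContDiff ℝ ∞ k2 := by
    rw [hk2f]
    exact Real.smoothTransition.contDiff.comp ((contDiff_id.sub contDiff_const).div_const Lg)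
  have hk2n : ∀ x, 0 ≤ k2 x := fun x => by rw [hk2]; exact Real.smoothTransition.nonneg _
  have hk2l : ∀ x, k2 x ≤ 1 := fun x => by rw [hk2]; exact Real.smoothTransition.le_one _
  have hk2z : ∀ x, x ≤ X₀ + 1 → k2 x = 0 := fun x hx => by
    rw [hk2]
    exact Real.smoothTransition.zero_of_nonpos
      (div_nonpos_of_nonpos_of_nonneg (by linarith) hLpos.le)
  have hk2o : ∀ x, X₀ + 1 + Lg ≤ x → k2 x = 1 := fun x hx => by
    rw [hk2]
    refine Real.smoothTransition.one_of_one_le ?_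
    rw [le_div_iff₀ hLpos]
    linarith
  have hk2d : ∀ x, HasDerivAt k2 (deriv Real.smoothTransition ((x - (X₀ + 1)) / Lg) / Lg) x := by
    intro x
    rw [hk2f]
    have h2 : HasDerivAt (fun x : ℝ => (x - (X₀ + 1)) / Lg) (1 / Lg) x :=
      ((hasDerivAt_id' x).sub_const (X₀ + 1)).div_const Lg
    have h3 : HasDerivAt Real.smoothTransition
        (deriv Real.smoothTransition ((x - (X₀ + 1)) / Lg)) ((x - (X₀ + 1)) / Lg) :=
      (((Real.smoothTransition.contDiff : ContDiff ℝ ∞ Real.smoothTransition)).differentiable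
        (by simp)).differentiableAt.hasDerivAt
    have h4 := h3.comp x h2
    rw [mul_one_div] at h4
    exact h4
  have hk2db : ∀ x t y, |deriv k2 x * c (t, y)| ≤ 1 / 2 := by
    intro x t y
    rw [(hk2d x).deriv, div_mul_eq_mul_div, abs_div, abs_of_pos hLpos, div_le_iff₀ hLpos, abs_mul]
    have := mul_le_mul (hD ((x - (X₀ + 1)) / Lg)) (hC t y) (abs_nonneg _) hD0
    have h9 : D * C ≤ 1 / 2 * Lg := by rw [hLg]; linarith
    exact this.trans h9
  -- M0 : (y,t) ↦ (e(t,y), t)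
  obtain ⟨M0, hM0, hM0S⟩ := hL ℝ (fun q => e (q.2, q.1) - q.1)
    ((heS.comp (contDiff_snd.prodMk contDiff_fst)).sub contDiff_fst)
    (by
      intro x t
      have h2 : HasDerivAt (fun s => e (t, s) - s) (deriv (fun s => e (t, s)) x - 1) x :=
        (hed t x).sub (hasDerivAt_id' x)
      simp only
      rw [h2.deriv]
      linarith [hepos t x])
    (fun t => ⟨E, fun x => hE t x⟩)
  -- ei
  obtain ⟨ei, hei⟩ : ∃ ei : ℝ × ℝ → ℝ, ∀ t y, ei (t, y) = (M0⁻¹ (y, t)).1 :=
    ⟨fun q => (M0⁻¹ (q.2, q.1)).1, fun _ _ => rfl⟩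
  have heiS : ContDiff ℝ ∞ ei := by
    have : ei = fun q => (M0⁻¹ (q.2, q.1)).1 := by funext q; exact hei q.1 q.2
    rw [this]
    exact contDiff_fst.comp (hM0S.comp (contDiff_snd.prodMk contDiff_fst))
  have hM0' : ∀ y t, M0 (y, t) = (e (t, y), t) := by
    intro y t
    rw [hM0]
    ext
    · simp only; ring
    · rfl
  have hM0i : ∀ q, M0 (M0⁻¹ q) = q := fun q => M0.apply_symm_apply q
  have hM0i' : ∀ q, M0⁻¹ (M0 q) = q := fun q => M0.symm_apply_apply q
  have hei2 : ∀ t y, ei (t, e (t, y)) = y := by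
    intro t y
    rw [hei, ← hM0', hM0i']
  -- M1 : (y,(t,x)) ↦ (y + k1 x (e(t,y) - y), (t,x))
  obtain ⟨M1, hM1, hM1S⟩ := hL (ℝ × ℝ) (fun q => k1 q.2.2 * (e (q.2.1, q.1) - q.1))
    ((hk1S.comp (contDiff_snd.comp contDiff_snd)).mul
      ((heS.comp ((contDiff_fst.comp contDiff_snd).prodMk contDiff_fst)).sub contDiff_fst))
    (by
      rintro y ⟨t, x⟩
      have h2 : HasDerivAt (fun s => k1 x * (e (t, s) - s))
          (k1 x * (deriv (fun s => e (t, s)) y - 1)) y :=
        ((hed t y).sub (hasDerivAt_id' y)).const_mul (k1 x)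
      simp only
      rw [h2.deriv]
      have h3 := hk1n x
      have h4 := hk1l x
      have h5 := hepos t y
      rcases h3.eq_or_lt with h6 | h6
      · rw [← h6]; norm_num
      · have := mul_pos h6 h5
        nlinarith)
    (by
      rintro ⟨t, x⟩
      refine ⟨E, fun y => ?_⟩
      simp only
      rw [abs_mul, abs_of_nonneg (hk1n x)]
      calc k1 x * |e (t, y) - y| ≤ 1 * |e (t, y) - y| :=
            mul_le_mul_of_nonneg_right (hk1l x) (abs_nonneg _)
        _ ≤ E := by rw [one_mul]; exact hE t y)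
  -- M2 : (x,(t,Y)) ↦ (x + k2 x c(t, ei(t,Y)), (t,Y))
  obtain ⟨M2, hM2, hM2S⟩ := hL (ℝ × ℝ) (fun q => k2 q.1 * c (q.2.1, ei q.2))
    ((hk2S.comp contDiff_fst).mul
      (hcS.comp ((contDiff_fst.comp contDiff_snd).prodMk (heiS.comp contDiff_snd))))
    (by
      rintro x ⟨t, y⟩
      have h2 : HasDerivAt (fun s => k2 s * c (t, ei (t, y)))
          (deriv k2 x * c (t, ei (t, y))) x := by
        have := (hk2d x).mul_const (c (t, ei (t, y)))
        rw [← (hk2d x).deriv] at this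
        exact this
      simp only
      rw [h2.deriv]
      have := (abs_le.1 (hk2db x t (ei (t, y)))).1
      linarith)
    (by
      rintro ⟨t, y⟩
      refine ⟨C, fun x => ?_⟩
      simp only
      rw [abs_mul, abs_of_nonneg (hk2n x)]
      calc k2 x * |c (t, ei (t, y))| ≤ 1 * |c (t, ei (t, y))| :=
            mul_le_mul_of_nonneg_right (hk2l x) (abs_nonneg _)
        _ ≤ C := by rw [one_mul]; exact hC _ _)
  have hM1i : ∀ q, M1 (M1⁻¹ q) = q := fun q => M1.apply_symm_apply q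
  have hM1i' : ∀ q, M1⁻¹ (M1 q) = q := fun q => M1.symm_apply_apply q
  have hM2i : ∀ q, M2 (M2⁻¹ q) = q := fun q => M2.apply_symm_apply q
  have hM2i' : ∀ q, M2⁻¹ (M2 q) = q := fun q => M2.symm_apply_apply q
  have hM1s : ∀ q, (M1 q).2 = q.2 := fun q => by rw [hM1]
  have hM2s : ∀ q, (M2 q).2 = q.2 := fun q => by rw [hM2]
  have hM1is : ∀ q, (M1⁻¹ q).2 = q.2 := fun q => by
    have := hM1s (M1⁻¹ q); rw [hM1i] at this; exact this.symm
  have hM2is : ∀ q, (M2⁻¹ q).2 = q.2 := fun q => by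
    have := hM2s (M2⁻¹ q); rw [hM2i] at this; exact this.symm
  -- V and H
  obtain ⟨V, hV, hVi⟩ : ∃ V : ℝ → Equiv.Perm P2,
      (∀ t p, V t p = (p.1, (M1 (p.2, (t, p.1))).1)) ∧
      (∀ t p, (V t)⁻¹ p = (p.1, (M1⁻¹ (p.2, (t, p.1))).1)) := by
    refine ⟨fun t => ⟨fun p => (p.1, (M1 (p.2, (t, p.1))).1),
      fun p => (p.1, (M1⁻¹ (p.2, (t, p.1))).1), ?_, ?_⟩, fun _ _ => rfl, fun _ _ => rfl⟩
    · intro p
      have h2 : M1 (p.2, (t, p.1)) = ((M1 (p.2, (t, p.1))).1, (t, p.1)) :=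
        Prod.ext rfl (hM1s _)
      simp only
      rw [← h2, hM1i']
    · intro p
      have h2 : M1⁻¹ (p.2, (t, p.1)) = ((M1⁻¹ (p.2, (t, p.1))).1, (t, p.1)) :=
        Prod.ext rfl (hM1is _)
      simp only
      rw [← h2, hM1i]
  obtain ⟨H, hH, hHi⟩ : ∃ H : ℝ → Equiv.Perm P2,
      (∀ t p, H t p = ((M2 (p.1, (t, p.2))).1, p.2)) ∧
      (∀ t p, (H t)⁻¹ p = ((M2⁻¹ (p.1, (t, p.2))).1, p.2)) := by
    refine ⟨fun t => ⟨fun p => ((M2 (p.1, (t, p.2))).1, p.2),
      fun p => ((M2⁻¹ (p.1, (t, p.2))).1, p.2), ?_, ?_⟩, fun _ _ => rfl, fun _ _ => rfl⟩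
    · intro p
      have h2 : M2 (p.1, (t, p.2)) = ((M2 (p.1, (t, p.2))).1, (t, p.2)) :=
        Prod.ext rfl (hM2s _)
      simp only
      rw [← h2, hM2i']
    · intro p
      have h2 : M2⁻¹ (p.1, (t, p.2)) = ((M2⁻¹ (p.1, (t, p.2))).1, (t, p.2)) :=
        Prod.ext rfl (hM2is _)
      simp only
      rw [← h2, hM2i]
  have hV' : ∀ t x y, V t (x, y) = (x, y + k1 x * (e (t, y) - y)) := by
    intro t x y; rw [hV, hM1]
  have hH' : ∀ t x y, H t (x, y) = (x + k2 x * c (t, ei (t, y)), y) := by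
    intro t x y; rw [hH, hM2]
  have hM1c : ContDiff ℝ ∞ (fun q => M1 q) := by
    have : (fun q => M1 q) = fun q : ℝ × (ℝ × ℝ) => (q.1 + k1 q.2.2 * (e (q.2.1, q.1) - q.1), q.2) := by
      funext q; exact hM1 q
    rw [this]
    exact (contDiff_fst.add ((hk1S.comp (contDiff_snd.comp contDiff_snd)).mul
      ((heS.comp ((contDiff_fst.comp contDiff_snd).prodMk contDiff_fst)).sub contDiff_fst))).prodMk
      contDiff_snd
  have hM2c : ContDiff ℝ ∞ (fun q => M2 q) := by
    have : (fun q => M2 q) = fun q : ℝ × (ℝ × ℝ) => (q.1 + k2 q.1 * c (q.2.1, ei q.2), q.2) := by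
      funext q; exact hM2 q
    rw [this]
    exact (contDiff_fst.add ((hk2S.comp contDiff_fst).mul
      (hcS.comp ((contDiff_fst.comp contDiff_snd).prodMk (heiS.comp contDiff_snd))))).prodMk
      contDiff_snd
  have hVS : SF V := by
    constructor
    · have : (fun q : ℝ × P2 => V q.1 q.2) =
          fun q : ℝ × P2 => (q.2.1, (M1 (q.2.2, (q.1, q.2.1))).1) := by
        funext q; exact hV q.1 q.2
      rw [this]
      exact (contDiff_fst.comp contDiff_snd).prodMk (contDiff_fst.comp (hM1c.comp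
        ((contDiff_snd.comp contDiff_snd).prodMk (contDiff_fst.prodMk
          (contDiff_fst.comp contDiff_snd)))))
    · have : (fun q : ℝ × P2 => (V q.1)⁻¹ q.2) =
          fun q : ℝ × P2 => (q.2.1, (M1⁻¹ (q.2.2, (q.1, q.2.1))).1) := by
        funext q; exact hVi q.1 q.2
      rw [this]
      exact (contDiff_fst.comp contDiff_snd).prodMk (contDiff_fst.comp (hM1S.comp
        ((contDiff_snd.comp contDiff_snd).prodMk (contDiff_fst.prodMk
          (contDiff_fst.comp contDiff_snd)))))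
  have hHS : SF H := by
    constructor
    · have : (fun q : ℝ × P2 => H q.1 q.2) =
          fun q : ℝ × P2 => ((M2 (q.2.1, (q.1, q.2.2))).1, q.2.2) := by
        funext q; exact hH q.1 q.2
      rw [this]
      exact (contDiff_fst.comp (hM2c.comp ((contDiff_fst.comp contDiff_snd).prodMk
        (contDiff_fst.prodMk (contDiff_snd.comp contDiff_snd))))).prodMk
        (contDiff_snd.comp contDiff_snd)
    · have : (fun q : ℝ × P2 => (H q.1)⁻¹ q.2) =
          fun q : ℝ × P2 => ((M2⁻¹ (q.2.1, (q.1, q.2.2))).1, q.2.2) := by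
        funext q; exact hHi q.1 q.2
      rw [this]
      exact (contDiff_fst.comp (hM2S.comp ((contDiff_fst.comp contDiff_snd).prodMk
        (contDiff_fst.prodMk (contDiff_snd.comp contDiff_snd))))).prodMk
        (contDiff_snd.comp contDiff_snd)
  -- the composition B
  obtain ⟨B, hB⟩ : ∃ B : ℝ → Equiv.Perm P2, ∀ t, B t = H t * V t := ⟨fun t => H t * V t, fun _ => rfl⟩
  have hBS : SF B := by
    have : B = fun t => H t * V t := funext hB
    rw [this]
    exact hHS.mul hVS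
  have hBa : ∀ t x y, B t (x, y) = (x + k2 x * c (t, ei (t, y + k1 x * (e (t, y) - y))),
      y + k1 x * (e (t, y) - y)) := by
    intro t x y
    rw [hB, Equiv.Perm.mul_apply, hV', hH']
  have hBfar : ∀ t x y, X₀ + 1 ≤ x → B t (x, y) = (x + k2 x * c (t, y), e (t, y)) := by
    intro t x y hx
    have h2 : y + k1 x * (e (t, y) - y) = e (t, y) := by rw [hk1o x hx]; ring
    rw [hBa, h2, hei2]
  have hBleft : ∀ t x y, x ≤ X₀ → B t (x, y) = (x, y) := by
    intro t x y hx
    rw [hBa, hk2z x (by linarith), hk1z x hx]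
    ext <;> simp
  have hBy : ∀ t x y, R ≤ |y| → B t (x, y) = (x, y) := by
    intro t x y hy
    have h2 : y + k1 x * (e (t, y) - y) = y := by rw [heR t y hy]; ring
    have h3 : ei (t, y) = y := by
      have := hei2 t y
      rwa [heR t y hy] at this
    rw [hBa, h2, h3, hcR t y hy]
    ext <;> simp
  have hB0 : ∀ t, t ≤ 0 → B t = 1 := by
    intro t ht
    refine Equiv.ext fun p => ?_
    obtain ⟨x, y⟩ := p
    have h2 : y + k1 x * (e (t, y) - y) = y := by rw [he0 t y ht]; ring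
    rw [hBa, h2, hc0 t _ ht]
    ext <;> simp
  have hei1 : ∀ t y, 1 ≤ t → ei (t, y) = ei (1, y) := by
    intro t y ht
    have h2 : e (t, ei (1, y)) = y := by
      rw [he1 t _ ht]
      have h3 := hM0' (ei (1, y)) 1
      have h4 : (ei (1, y), (1 : ℝ)) = M0⁻¹ (y, 1) := by
        refine Prod.ext (hei 1 y) ?_
        have h5 := hM0i (y, 1)
        rw [hM0] at h5
        exact (congrArg Prod.snd h5).symm
      rw [h4, hM0i] at h3
      exact (congrArg Prod.fst h3).symm
    have h6 := hei2 t (ei (1, y))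
    rw [h2] at h6
    exact h6
  have hB1 : ∀ t, 1 ≤ t → B t = B 1 := by
    intro t ht
    refine Equiv.ext fun p => ?_
    obtain ⟨x, y⟩ := p
    rw [hBa, hBa, he1 t y ht, hei1 t _ ht, hc1 t _ ht]
  -- F
  refine ⟨fun t => S t * (B t)⁻¹, ⟨⟨?_, ?_, ?_⟩, ?_, ?_⟩, ?_, ?_⟩
  · exact (SF.mul (F := S) ⟨hS, hSi⟩ hBS.inv).1
  · exact (SF.mul (F := S) ⟨hS, hSi⟩ hBS.inv).2
  · -- compact support
    refine ⟨R + X₀ + 1 + Lg + C + E, fun t p hp => ?_⟩
    obtain ⟨q, hq⟩ : ∃ q, q = (B t)⁻¹ p := ⟨_, rfl⟩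
    have hpq : B t q = p := by rw [hq]; exact (B t).apply_symm_apply p
    show S t ((B t)⁻¹ p) = p
    rw [← hq]
    obtain ⟨x, y⟩ := q
    rw [← hpq]
    by_cases hy : R ≤ |y|
    · rw [hBy t x y hy, hfix t (x, y) (Or.inr hy)]
    · by_cases hxl : x ≤ -R
      · rw [hBleft t x y (by linarith), hfix t (x, y) (Or.inl hxl)]
      · by_cases hxr : X₀ + 1 + Lg ≤ x
        · rw [hBfar t x y (by linarith), hk2o x hxr, hfar' t (x, y) (by simp only; linarith), one_mul]
        · exfalso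
          push Not at hy hxl hxr
          have hy' := abs_lt.1 hy
          rw [← hpq, hBa, Prod.norm_def] at hp
          simp only [Real.norm_eq_abs] at hp
          have hc' : ∀ z, |k2 x * c (t, z)| ≤ C := by
            intro z
            rw [abs_mul, abs_of_nonneg (hk2n x)]
            calc k2 x * |c (t, z)| ≤ 1 * |c (t, z)| :=
                  mul_le_mul_of_nonneg_right (hk2l x) (abs_nonneg _)
              _ ≤ C := by rw [one_mul]; exact hC _ _
          have he' : |k1 x * (e (t, y) - y)| ≤ E := by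
            rw [abs_mul, abs_of_nonneg (hk1n x)]
            calc k1 x * |e (t, y) - y| ≤ 1 * |e (t, y) - y| :=
                  mul_le_mul_of_nonneg_right (hk1l x) (abs_nonneg _)
              _ ≤ E := by rw [one_mul]; exact hE t y
          have h3 := abs_le.1 (hc' (ei (t, y + k1 x * (e (t, y) - y))))
          have h4 := abs_le.1 he'
          have h5 : |x + k2 x * c (t, ei (t, y + k1 x * (e (t, y) - y)))| ≤
              R + X₀ + 1 + Lg + C + E := by
            rw [abs_le]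
            constructor <;> linarith
          have h6 : |y + k1 x * (e (t, y) - y)| ≤ R + X₀ + 1 + Lg + C + E := by
            rw [abs_le]
            constructor <;> linarith
          exact absurd (max_le h5 h6) (not_le.2 hp)
  · intro t ht
    simp only
    rw [h0 t ht, hB0 t ht, h0 0 le_rfl, hB0 0 le_rfl]
  · intro t ht
    simp only
    rw [h1 t ht, hB1 t ht]
  · simp only
    rw [h0 0 le_rfl, hB0 0 le_rfl]
    simp
  · intro hy p
    have h2 : (S 1)⁻¹ ((S 1 * (B 1)⁻¹) p) = (B 1)⁻¹ p := by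
      rw [Equiv.Perm.mul_apply]
      exact (S 1).symm_apply_apply _
    simp only
    rw [h2]
    obtain ⟨q, hq⟩ : ∃ q, q = (B 1)⁻¹ p := ⟨_, rfl⟩
    have hpq : B 1 q = p := by rw [hq]; exact (B 1).apply_symm_apply p
    rw [← hq, ← hpq]
    obtain ⟨x, y⟩ := q
    rw [hBa, he 1 y, hy y]
    simp

end Pool.Agent.W589.DQ
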