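import Pool.Agent.W133.DQ.StC
import Pool.Agent.W133.DQ.StF

set_option autoImplicit false

open scoped ContDiff
open Set Filter Topology

namespace Pool.Agent.W589.DQ

open Pool.Agent.W133.DQ

namespace FK1

/-- the normal derivative of a map of the plane along the line `y = 0`. -/
noncomputable def nd (F : P2 → P2) (x : ℝ) : ℝ := (fderiv ℝ F (x, 0) (0, 1)).2

theorem hfd {F : P2 → P2} (hF : ContDiff ℝ ∞ F) (p : P2) : HasFDerivAt F (fderiv ℝ F p) p :=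
  (hF.differentiable (by simp)).differentiableAt.hasFDerivAt

theorem tangent {F : P2 → P2} (hF : ContDiff ℝ ∞ F) (h0 : ∀ x : ℝ, (F (x, 0)).2 = 0) (x : ℝ) :
    (fderiv ℝ F (x, 0) (1, 0)).2 = 0 := by
  have h1 : HasDerivAt (fun s : ℝ => ((s, 0) : P2)) ((1 : ℝ), (0 : ℝ)) x :=
    (hasDerivAt_id' x).prodMk (hasDerivAt_const x 0)
  have h2 : HasDerivAt (fun s : ℝ => F (s, 0)) (fderiv ℝ F (x, 0) (1, 0)) x :=
    (hfd hF (x, 0)).comp_hasDerivAt x h1
  have h3 : HasDerivAt (fun s : ℝ => (F (s, 0)).2)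
      (ContinuousLinearMap.snd ℝ ℝ ℝ (fderiv ℝ F (x, 0) (1, 0))) x :=
    (ContinuousLinearMap.snd ℝ ℝ ℝ).hasFDerivAt.comp_hasDerivAt x h2
  have h4 : (fun s : ℝ => (F (s, 0)).2) = fun _ => (0 : ℝ) := funext h0
  rw [h4] at h3
  exact h3.unique (hasDerivAt_const x 0)

theorem nd_comp {F G : P2 → P2} (hF : ContDiff ℝ ∞ F) (hG : ContDiff ℝ ∞ G)
    (hF0 : ∀ x : ℝ, (F (x, 0)).2 = 0) (hG0 : ∀ x : ℝ, (G (x, 0)).2 = 0) (x : ℝ) :
    nd (G ∘ F) x = nd G (F (x, 0)).1 * nd F x := by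
  unfold nd
  rw [fderiv_comp (x := ((x, 0) : P2)) (hfd hG _).differentiableAt (hfd hF _).differentiableAt,
    ContinuousLinearMap.comp_apply]
  obtain ⟨v, hv⟩ : ∃ v : P2, v = fderiv ℝ F (x, 0) (0, 1) := ⟨_, rfl⟩
  rw [← hv]
  have h1 : F (x, 0) = ((F (x, 0)).1, 0) := Prod.ext rfl (hF0 x)
  rw [h1]
  simp only
  have h2 : v = v.1 • ((1 : ℝ), (0 : ℝ)) + v.2 • ((0 : ℝ), (1 : ℝ)) := by
    ext <;> simp
  conv_lhs => rw [h2]
  rw [map_add, map_smul, map_smul]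
  simp only [Prod.snd_add, Prod.smul_snd, smul_eq_mul]
  rw [tangent hG hG0, mul_zero, zero_add, mul_comm]

/-- one sided derivative. -/
theorem vert {F : P2 → P2} (hF : ContDiff ℝ ∞ F) (x : ℝ) (φ : ℝ → P2) (w : P2)
    (hφ : HasDerivAt φ w 0) (ε : ℝ) (hε : 0 < ε) (h : ∀ s : ℝ, -ε < s → s ≤ 0 → F (x, s) = φ s) :
    fderiv ℝ F (x, 0) (0, 1) = w := by
  have h1 : HasDerivAt (fun s : ℝ => ((x, s) : P2)) ((0 : ℝ), (1 : ℝ)) 0 :=
    (hasDerivAt_const (0 : ℝ) x).prodMk (hasDerivAt_id' 0)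
  have h2 : HasDerivAt (fun s : ℝ => F (x, s)) (fderiv ℝ F (x, 0) (0, 1)) 0 :=
    (hfd hF (x, 0)).comp_hasDerivAt (0 : ℝ) h1
  have h3 : HasDerivWithinAt (fun s : ℝ => F (x, s)) (fderiv ℝ F (x, 0) (0, 1)) (Iic 0) 0 :=
    h2.hasDerivWithinAt
  have h4 : HasDerivWithinAt (fun s : ℝ => F (x, s)) w (Iic 0) 0 := by
    refine (hφ.hasDerivWithinAt (s := Iic 0)).congr_of_eventuallyEq ?_ (h 0 (by linarith) le_rfl)
    filter_upwards [self_mem_nhdsWithin, mem_nhdsWithin_of_mem_nhds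
      (Ioi_mem_nhds (show -ε < (0 : ℝ) by linarith))] with s hs hs'
    exact h s hs' hs
  exact UniqueDiffWithinAt.eq_deriv _ (uniqueDiffWithinAt_Iic 0) h3 h4

theorem nd_id {F : P2 → P2} (hF : ContDiff ℝ ∞ F) (h : ∀ p : HH, F p = p) (x : ℝ) :
    nd F x = 1 := by
  unfold nd
  have h1 : HasDerivAt (fun s : ℝ => ((x, s) : P2)) ((0 : ℝ), (1 : ℝ)) 0 :=
    (hasDerivAt_const (0 : ℝ) x).prodMk (hasDerivAt_id' 0)
  rw [vert hF x _ _ h1 1 one_pos (fun s _ hs => h ⟨(x, s), hs⟩)]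

/-- extension maps the line to the line. -/
theorem line {m : Equiv.Perm HH} (hm : m ∈ BB) {M : P2 → P2} (hM : ∀ p : HH, (m p : P2) = M p)
    (x : ℝ) : (M (x, 0)).2 = 0 := by
  have h1 := hM (bp x)
  have h2 := (hm.2.2.2.1 (bp x)).1 rfl
  have h3 : ((bp x : HH) : P2) = (x, 0) := rfl
  rw [h3] at h1
  rw [← h1]
  exact h2

/-- the kernel of the second order part. -/
def KK : Subgroup (Equiv.Perm HH) where
  carrier := {f | f ∈ BB ∧ (∀ x, f (bp x) = bp x) ∧ ND f (fun _ => 1)}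
  mul_mem' := by
    rintro f g ⟨hf, hf1, F, hF, hFf, hFd⟩ ⟨hg, hg1, G, hG, hGg, hGd⟩
    refine ⟨BB.mul_mem hf hg, fun x => ?_, F ∘ G, hF.comp hG, fun p => ?_, fun x => ?_⟩
    · rw [Equiv.Perm.mul_apply, hg1, hf1]
    · rw [Equiv.Perm.mul_apply, hFf, hGg]; rfl
    · have := nd_comp hG hF (line hg hGg) (line hf hFf) x
      unfold nd at this
      rw [this, hFd, hGd, one_mul]
  one_mem' := by
    refine ⟨BB.one_mem, fun x => rfl, id, contDiff_id, fun p => rfl, fun x => ?_⟩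
    exact nd_id contDiff_id (fun p => rfl) x
  inv_mem' := by
    rintro f ⟨hf, hf1, F, hF, hFf, hFd⟩
    have hfi := BB.inv_mem hf
    obtain ⟨G, hG, hGg⟩ := hfi.1
    refine ⟨hfi, fun x => ?_, G, hG, hGg, fun x => ?_⟩
    · rw [Equiv.Perm.inv_eq_iff_eq, hf1]
    · have h1 := nd_comp hF hG (line hf hFf) (line hfi hGg) x
      have h2 : nd (G ∘ F) x = 1 := by
        refine nd_id (hG.comp hF) (fun p => ?_) x
        show G (F p) = p
        rw [← hFf, ← hGg]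
        exact congrArg Subtype.val (f.symm_apply_apply p)
      have h3 : F (x, 0) = (x, 0) := by
        have := hFf (bp x)
        rw [hf1] at this
        exact this.symm
      have h4 : nd F x = 1 := hFd x
      rw [h2, h4, mul_one, h3] at h1
      exact h1.symm

theorem KK_conj {m n : Equiv.Perm HH} (hm : m ∈ BB) (hn : n ∈ KK) : m * n * m⁻¹ ∈ KK := by
  obtain ⟨hn0, hn1, N, hN, hNn, hNd⟩ := hn
  have hmi := BB.inv_mem hm
  obtain ⟨M, hM, hMm⟩ := hm.1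
  obtain ⟨M', hM', hMm'⟩ := hmi.1
  have hbx : ∀ x, ∃ x', m⁻¹ (bp x) = bp x' := by
    intro x
    refine ⟨(m⁻¹ (bp x)).1.1, ?_⟩
    have h2 := (hmi.2.2.2.1 (bp x)).1 rfl
    apply Subtype.ext
    exact Prod.ext rfl h2
  refine ⟨BB.mul_mem (BB.mul_mem hm hn0) hmi, fun x => ?_, M ∘ (N ∘ M'), hM.comp (hN.comp hM'),
    fun p => ?_, fun x => ?_⟩
  · obtain ⟨x', hx'⟩ := hbx x
    rw [Equiv.Perm.mul_apply, Equiv.Perm.mul_apply, hx', hn1, ← hx']
    exact m.apply_symm_apply _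
  · rw [Equiv.Perm.mul_apply, Equiv.Perm.mul_apply, hMm, hNn, hMm']; rfl
  · have hN0 := line hn0 hNn
    have hM0 := line hm hMm
    have hM0' := line hmi hMm'
    have hNM0 : ∀ x : ℝ, ((N ∘ M') (x, 0)).2 = 0 := by
      intro x
      have h1 : M' (x, 0) = ((M' (x, 0)).1, 0) := Prod.ext rfl (hM0' x)
      show (N (M' (x, 0))).2 = 0
      rw [h1]
      exact hN0 _
    have h1 := nd_comp (hN.comp hM') hM hNM0 hM0 x
    have h2 := nd_comp hM' hN hM0' hN0 x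
    have h3 : nd N (M' (x, 0)).1 = 1 := hNd _
    rw [h3, one_mul] at h2
    have h4 : (N ∘ M') (x, 0) = M' (x, 0) := by
      obtain ⟨x', hx'⟩ := hbx x
      have h5 : M' (x, 0) = (x', 0) := by
        have := hMm' (bp x)
        rw [hx'] at this
        exact this.symm
      show N (M' (x, 0)) = M' (x, 0)
      rw [h5]
      have := hNn (bp x')
      rw [hn1] at this
      exact this.symm
    rw [h2, h4] at h1
    have h6 := nd_comp hM' hM hM0' hM0 x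
    have h7 : nd (M ∘ M') x = 1 := by
      refine nd_id (hM.comp hM') (fun p => ?_) x
      show M (M' p) = p
      rw [← hMm', ← hMm]
      exact congrArg Subtype.val (m.apply_symm_apply p)
    rw [← h6, h7] at h1
    exact h1

end FK1

open FK1

theorem fk1 (hK2 : S_FK2) (hFL : S_FL) (hS : S_SCAL) (hP : S_PEXT) (hA3 : S_A3) : S_FK1 := by
  intro ν hν hν0 f hf hfx
  obtain ⟨F, hF, hFf, hFp⟩ := hP f hf
  have hfi := BB.inv_mem hf
  obtain ⟨F', hF', hFf'⟩ := hfi.1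
  have hF0 := line hf hFf
  have hF0' := line hfi hFf'
  -- b
  obtain ⟨b, hb⟩ : ∃ b : ℝ → ℝ, ∀ x, b x = nd F x := ⟨nd F, fun _ => rfl⟩
  have hbS : ContDiff ℝ ∞ b := by
    have : b = fun x => (fderiv ℝ F (x, 0) (0, 1)).2 := funext hb
    rw [this]
    have h1 : ContDiff ℝ ∞ (fun x : ℝ => fderiv ℝ F (x, 0)) :=
      (hF.fderiv_right (by simp)).comp (contDiff_id.prodMk contDiff_const)
    exact contDiff_snd.comp (h1.clm_apply contDiff_const)
  have hbper : ∀ x, b (x + 1) = b x := by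
    intro x
    rw [hb, hb]
    unfold nd
    have h1 : (fun p : P2 => F (p + ((1 : ℝ), (0 : ℝ)))) = fun p => F p + ((1 : ℝ), (0 : ℝ)) := by
      funext p
      have := hFp p
      rw [← this]
      congr 1
      ext <;> simp
    have h2 : fderiv ℝ (fun p : P2 => F (p + ((1 : ℝ), (0 : ℝ)))) (x, 0) =
        fderiv ℝ F ((x, 0) + ((1 : ℝ), (0 : ℝ))) := fderiv_comp_add_right _
    rw [h1, fderiv_add_const] at h2
    have h3 : (((x, 0) : P2) + ((1 : ℝ), (0 : ℝ))) = (x + 1, 0) := by ext <;> simp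
    rw [h3] at h2
    rw [← h2]
  have hbne : ∀ x, b x ≠ 0 := by
    intro x hz
    have h1 := nd_comp hF hF' hF0 hF0' x
    have h2 : nd (F' ∘ F) x = 1 := by
      refine nd_id (hF'.comp hF) (fun p => ?_) x
      show F' (F p) = p
      rw [← hFf, ← hFf']
      exact congrArg Subtype.val (f.symm_apply_apply p)
    rw [h2, ← hb, hz, mul_zero] at h1
    exact one_ne_zero h1
  have hbpos : ∀ x, 0 < b x := by
    intro x
    refine lt_of_le_of_ne ?_ (hbne x).symm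
    rw [hb]
    unfold nd
    have h1 : HasDerivAt (fun s : ℝ => ((x, s) : P2)) ((0 : ℝ), (1 : ℝ)) 0 :=
      (hasDerivAt_const (0 : ℝ) x).prodMk (hasDerivAt_id' 0)
    have h2 : HasDerivAt (fun s : ℝ => F (x, s)) (fderiv ℝ F (x, 0) (0, 1)) 0 :=
      (hfd hF (x, 0)).comp_hasDerivAt (0 : ℝ) h1
    have h3 : HasDerivAt (fun s : ℝ => (F (x, s)).2)
        (ContinuousLinearMap.snd ℝ ℝ ℝ (fderiv ℝ F (x, 0) (0, 1))) 0 :=
      (ContinuousLinearMap.snd ℝ ℝ ℝ).hasFDerivAt.comp_hasDerivAt (0 : ℝ) h2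
    by_contra hneg
    push Not at hneg
    have h4 : (ContinuousLinearMap.snd ℝ ℝ ℝ) (fderiv ℝ F (x, 0) (0, 1)) < 0 := hneg
    -- slope negative: for small s < 0, F(x,s).2 > 0
    have h5 := (hasDerivAt_iff_tendsto_slope.1 h3).eventually (Iio_mem_nhds h4)
    have h6 : ∀ᶠ s in 𝓝[<] (0 : ℝ), slope (fun s : ℝ => (F (x, s)).2) 0 s ∈ Iio (0 : ℝ) :=
      h5.filter_mono (nhdsWithin_mono _ (fun s hs => ne_of_lt hs))
    obtain ⟨s, hs1, hs2⟩ := (h6.and self_mem_nhdsWithin).exists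
    have hs0 : s < 0 := hs2
    rw [slope_def_field] at hs1
    have h7 : (F (x, s)).2 ≤ 0 := by
      have := hFf ⟨(x, s), hs0.le⟩
      rw [← this]
      exact (f ⟨(x, s), hs0.le⟩).2
    have h8 : (F (x, 0)).2 = 0 := hF0 x
    have h9 : ((F (x, s)).2 - (F (x, 0)).2) / (s - 0) < 0 := hs1
    rw [h8, sub_zero, sub_zero] at h9
    have h10 : 0 ≤ (F (x, s)).2 / s := div_nonneg_of_nonpos h7 hs0.le
    linarith
  -- beta
  obtain ⟨β, hβ⟩ : ∃ β : ℝ → ℝ, ∀ x, β x = Real.log (b x) := ⟨fun x => Real.log (b x), fun _ => rfl⟩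
  have hβS : ContDiff ℝ ∞ β := by
    have : β = fun x => Real.log (b x) := funext hβ
    rw [this]
    exact hbS.log hbne
  have hβp : ∀ x, β (x + 1) = β x := fun x => by rw [hβ, hβ, hbper]
  obtain ⟨S, hS1, hS2⟩ := hS
  obtain ⟨γ, hγ⟩ : ∃ γ : ℝ → ℝ, ∀ x, γ x = - β x := ⟨fun x => - β x, fun _ => rfl⟩
  have hγS : ContDiff ℝ ∞ γ := by
    have : γ = fun x => - β x := funext hγ
    rw [this]
    exact hβS.neg
  have hγp : ∀ x, γ (x + 1) = γ x := fun x => by rw [hγ, hγ, hβp]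
  have hS0 : S (fun _ => 0) = 1 := by
    have h1 := hS2 (fun _ => 0) (fun _ => 0) contDiff_const (fun _ => rfl) contDiff_const
      (fun _ => rfl)
    have h2 : (fun x : ℝ => (fun _ : ℝ => (0 : ℝ)) x + (fun _ : ℝ => (0 : ℝ)) x) =
        fun _ => (0 : ℝ) := by
      funext x; simp
    rw [h2] at h1
    exact (left_eq_mul.1 h1)
  have hSS : S β * S γ = 1 := by
    rw [← hS2 β γ hβS hβp hγS hγp]
    have : (fun x => β x + γ x) = fun _ => (0 : ℝ) := by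
      funext x; rw [hγ]; ring
    rw [this, hS0]
  obtain ⟨hSβ, εβ, hεβ, hSβ'⟩ := hS1 β hβS hβp
  obtain ⟨hSγ, ε, hε, hSγ'⟩ := hS1 γ hγS hγp
  -- k
  obtain ⟨k, hk⟩ : ∃ k, k = S γ * f := ⟨_, rfl⟩
  have hfk : f = S β * k := by
    rw [hk, ← mul_assoc, hSS, one_mul]
  have hkB : k ∈ BB := by rw [hk]; exact BB.mul_mem hSγ hf
  have hSγb : ∀ x, S γ (bp x) = bp x := by
    intro x
    apply Subtype.ext
    rw [hSγ' (bp x) (by show -ε < (0 : ℝ); linarith)]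
    show ((x, Real.exp (γ x) * 0) : P2) = (x, 0)
    rw [mul_zero]
  have hkx : ∀ x, k (bp x) = bp x := by
    intro x
    rw [hk, Equiv.Perm.mul_apply, hfx, hSγb]
  have hkN : ND k (fun _ => 1) := by
    obtain ⟨G, hG, hGg⟩ := hSγ.1
    refine ⟨G ∘ F, hG.comp hF, fun p => ?_, fun x => ?_⟩
    · rw [hk, Equiv.Perm.mul_apply, hGg, hFf]; rfl
    · have h1 := nd_comp hF hG hF0 (line hSγ hGg) x
      have h2 : F (x, 0) = (x, 0) := by
        have := hFf (bp x)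
        rw [hfx] at this
        exact this.symm
      have h3 : nd G x = Real.exp (γ x) := by
        unfold nd
        have h4 : HasDerivAt (fun s : ℝ => ((x, Real.exp (γ x) * s) : P2))
            ((0 : ℝ), Real.exp (γ x)) 0 := by
          refine (hasDerivAt_const (0 : ℝ) x).prodMk ?_
          simpa using (hasDerivAt_id' (0 : ℝ)).const_mul (Real.exp (γ x))
        rw [vert hG x _ _ h4 ε hε (fun s hs1 hs2 => ?_)]
        rw [← hGg ⟨(x, s), hs2⟩, hSγ' ⟨(x, s), hs2⟩ hs1]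
      rw [h2] at h1
      simp only at h1
      rw [h3, ← hb, hγ, hβ, Real.exp_neg, Real.exp_log (hbpos x),
        inv_mul_cancel₀ (hbne x)] at h1
      exact h1
  have hkK : k ∈ KK := ⟨hkB, hkx, hkN⟩
  have h := (hA3 (Equiv.Perm HH) BB KK ν hν (fun n hn => hn.1)
    (fun a ha n hn => KK_conj ha hn) (fun n hn => hK2 ν hν hν0 n hn.1 hn.2.1 hn.2.2) (S β) hSβ k hkK).1
  rw [hfk, h]
  exact hFL ν hν hν0 β hβS hβp (S β) hSβ ⟨εβ, hεβ, hSβ'⟩

end Pool.Agent.W589.DQ
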