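import Pool.Agent.W589.DQ.CORR

set_option autoImplicit false

open scoped ContDiff
open Set Filter Topology

namespace Pool.Agent.W589.DQ

open Pool.Agent.W133.DQ Corr

/-- families of horizontal displacements. -/
theorem hfam (hL : S_LPINV) (w : ℝ × (ℝ × ℝ) → ℝ) (hw : ContDiff ℝ ∞ w)
    (hd : ∀ (x : ℝ) (e : ℝ × ℝ), -1 < deriv (fun s => w (s, e)) x)
    (hb : ∀ e : ℝ × ℝ, ∃ C : ℝ, ∀ x : ℝ, |w (x, e)| ≤ C) :
    ∃ H : ℝ → Equiv.Perm P2, SF H ∧ ∀ t (p : P2), H t p = (p.1 + w (p.1, (t, p.2)), p.2) := by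
  obtain ⟨M, hM, hMS⟩ := hL (ℝ × ℝ) w hw hd hb
  have hMi : ∀ q, M (M⁻¹ q) = q := fun q => M.apply_symm_apply q
  have hMi' : ∀ q, M⁻¹ (M q) = q := fun q => M.symm_apply_apply q
  have hMs : ∀ q, (M q).2 = q.2 := fun q => by rw [hM]
  have hMis : ∀ q, (M⁻¹ q).2 = q.2 := fun q => by
    have := hMs (M⁻¹ q); rw [hMi] at this; exact this.symm
  obtain ⟨H, hH, hHi⟩ : ∃ H : ℝ → Equiv.Perm P2,
      (∀ t p, H t p = ((M (p.1, (t, p.2))).1, p.2)) ∧
      (∀ t p, (H t)⁻¹ p = ((M⁻¹ (p.1, (t, p.2))).1, p.2)) := by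
    refine ⟨fun t => ⟨fun p => ((M (p.1, (t, p.2))).1, p.2),
      fun p => ((M⁻¹ (p.1, (t, p.2))).1, p.2), ?_, ?_⟩, fun _ _ => rfl, fun _ _ => rfl⟩
    · intro p
      have h2 : M (p.1, (t, p.2)) = ((M (p.1, (t, p.2))).1, (t, p.2)) :=
        Prod.ext rfl (hMs _)
      simp only
      rw [← h2, hMi']
    · intro p
      have h2 : M⁻¹ (p.1, (t, p.2)) = ((M⁻¹ (p.1, (t, p.2))).1, (t, p.2)) :=
        Prod.ext rfl (hMis _)
      simp only
      rw [← h2, hMi]
  have hMc : ContDiff ℝ ∞ (fun q => M q) := by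
    have : (fun q => M q) = fun q : ℝ × (ℝ × ℝ) => (q.1 + w q, q.2) := by
      funext q; exact hM q
    rw [this]
    exact (contDiff_fst.add hw).prodMk contDiff_snd
  refine ⟨H, ⟨?_, ?_⟩, fun t p => by rw [hH, hM]⟩
  · have : (fun q : ℝ × P2 => H q.1 q.2) =
        fun q : ℝ × P2 => ((M (q.2.1, (q.1, q.2.2))).1, q.2.2) := by
      funext q; exact hH q.1 q.2
    rw [this]
    exact (contDiff_fst.comp (hMc.comp ((contDiff_fst.comp contDiff_snd).prodMk
      (contDiff_fst.prodMk (contDiff_snd.comp contDiff_snd))))).prodMk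
      (contDiff_snd.comp contDiff_snd)
  · have : (fun q : ℝ × P2 => (H q.1)⁻¹ q.2) =
        fun q : ℝ × P2 => ((M⁻¹ (q.2.1, (q.1, q.2.2))).1, q.2.2) := by
      funext q; exact hHi q.1 q.2
    rw [this]
    exact (contDiff_fst.comp (hMS.comp ((contDiff_fst.comp contDiff_snd).prodMk
      (contDiff_fst.prodMk (contDiff_snd.comp contDiff_snd))))).prodMk
      (contDiff_snd.comp contDiff_snd)

/-- a leaf preserving diffeomorphism is increasing on the leaves. -/
theorem lp_pos {g : Equiv.Perm P2} (hg : g ∈ LP) (x y : ℝ) :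
    0 < deriv (fun s => (g (s, y)).1) x := by
  obtain ⟨⟨⟨h1, h2⟩, R, hR⟩, h3⟩ := hg
  have hgx : ContDiff ℝ ∞ (fun s : ℝ => g (s, y)) := h1.comp (contDiff_id.prodMk contDiff_const)
  have hg1 : ContDiff ℝ ∞ (fun s : ℝ => (g (s, y)).1) := contDiff_fst.comp hgx
  have hne : ∀ x, deriv (fun s => (g (s, y)).1) x ≠ 0 := by
    intro x hz
    have hA : HasDerivAt (fun s : ℝ => (g (s, y)).1) 0 x := by
      rw [← hz]
      exact (hg1.differentiable (by simp)).differentiableAt.hasDerivAt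
    have hB : HasDerivAt (fun s : ℝ => g (s, y)) ((0 : ℝ), (0 : ℝ)) x := by
      have h4 : HasDerivAt (fun s : ℝ => (((g (s, y)).1, y) : P2)) ((0 : ℝ), (0 : ℝ)) x :=
        hA.prodMk (hasDerivAt_const x y)
      have h5 : (fun s : ℝ => g (s, y)) = fun s : ℝ => (((g (s, y)).1, y) : P2) := by
        funext s
        exact Prod.ext rfl (h3 (s, y))
      rw [h5]
      exact h4
    have hC : HasFDerivAt (fun p : P2 => g⁻¹ p) (fderiv ℝ (fun p : P2 => g⁻¹ p) (g (x, y)))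
        (g (x, y)) := (h2.differentiable (by simp)).differentiableAt.hasFDerivAt
    have hD := hC.comp_hasDerivAt x hB
    have h6 : fderiv ℝ (fun p : P2 => g⁻¹ p) (g (x, y)) ((0 : ℝ), (0 : ℝ)) = 0 := map_zero _
    rw [h6] at hD
    have h7 : ((fun p : P2 => g⁻¹ p) ∘ fun s : ℝ => g (s, y)) = fun s : ℝ => ((s, y) : P2) := by
      funext s
      exact g.symm_apply_apply _
    rw [h7] at hD
    have h8 : HasDerivAt (fun s : ℝ => ((s, y) : P2)) ((1 : ℝ), (0 : ℝ)) x :=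
      (hasDerivAt_id' x).prodMk (hasDerivAt_const x y)
    have h9 := congrArg Prod.fst (hD.unique h8)
    simp at h9
  by_contra hneg
  have hcont : Continuous (fun s => deriv (fun s => (g (s, y)).1) s) :=
    hg1.continuous_deriv (by simp)
  have hone : deriv (fun s => (g (s, y)).1) (|R| + 1) = 1 := by
    have : (fun s : ℝ => (g (s, y)).1) =ᶠ[𝓝 (|R| + 1)] fun s => s := by
      filter_upwards [Ioi_mem_nhds (show |R| < |R| + 1 by linarith)] with s hs
      rw [hR (s, y)]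
      rw [Prod.norm_def]
      refine lt_max_of_lt_left ?_
      rw [Real.norm_eq_abs]
      have h10 : |R| < s := hs
      exact lt_of_le_of_lt (le_abs_self R) (lt_of_lt_of_le h10 (le_abs_self s))
    rw [this.deriv_eq]
    simp
  obtain ⟨q, hq⟩ := mem_range_of_exists_le_of_exists_ge hcont (c := 0)
    ⟨x, not_lt.1 hneg⟩ ⟨|R| + 1, by rw [hone]; exact zero_le_one⟩
  exact hne q hq

theorem path (hA : S_ANGLE) (hSt : S_STRAIGHT) (hCo : S_CORR) (hL : S_LPINV) : S_PATH := by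
  intro f hf
  obtain ⟨φ, hφS, ⟨R₁, hR₁, hφR⟩, hφf⟩ := hA f hf
  obtain ⟨⟨hf1, hf2⟩, R₂, hR₂⟩ := hf
  obtain ⟨R, hRdef⟩ : ∃ R : ℝ, R = max R₁ (|R₂| + 1) := ⟨_, rfl⟩
  have hR : 0 < R := by rw [hRdef]; exact lt_max_of_lt_left hR₁
  have hφ : ∀ p, R ≤ ‖p‖ → φ p = 0 := fun p hp =>
    hφR p ((le_max_left _ _).trans (hRdef ▸ hp))
  have hfR : ∀ p, R ≤ ‖p‖ → f p = p := fun p hp => by
    have h2 : |R₂| + 1 ≤ ‖p‖ := (le_max_right _ _).trans (hRdef ▸ hp)
    exact hR₂ p (by have := le_abs_self R₂; linarith)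
  obtain ⟨S, hS, hSi, hSd, hfix, h0, h1, X₀, hX, hXr, hfar⟩ := hSt φ R hφS hR hφ
  obtain ⟨F', hF', hF'0, hF'1⟩ := hCo R X₀ S hR hX hS hSi hfix h0 h1 hXr hfar
  have hS1 : ContDiff ℝ ∞ (fun p : P2 => S 1 p) := hS.comp (contDiff_const.prodMk contDiff_id)
  have hSi1 : ContDiff ℝ ∞ (fun p : P2 => (S 1)⁻¹ p) :=
    hSi.comp (contDiff_const.prodMk contDiff_id)
  -- claim
  have claim : ∀ p : P2, ((S 1)⁻¹ (f p)).2 = p.2 := by
    rintro ⟨x, y⟩
    have hder : ∀ x : ℝ, HasDerivAt (fun s : ℝ => ((S 1)⁻¹ (f (s, y))).2) 0 x := by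
      intro x
      obtain ⟨ρ, hρ, hρf⟩ := hφf (x, y)
      have e1 : HasFDerivAt (fun p : P2 => (S 1)⁻¹ p)
          (fderiv ℝ (fun p : P2 => (S 1)⁻¹ p) (f (x, y))) (f (x, y)) :=
        (hSi1.differentiable (by simp)).differentiableAt.hasFDerivAt
      have e2 : HasFDerivAt (fun p : P2 => f p) (fderiv ℝ (fun p : P2 => f p) (x, y)) (x, y) :=
        (hf1.differentiable (by simp)).differentiableAt.hasFDerivAt
      have e3 : HasDerivAt (fun s : ℝ => ((s, y) : P2)) ((1 : ℝ), (0 : ℝ)) x :=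
        (hasDerivAt_id' x).prodMk (hasDerivAt_const x y)
      have e4 : HasDerivAt (fun s : ℝ => f (s, y))
          (ρ * Real.cos (φ (f (x, y))), ρ * Real.sin (φ (f (x, y)))) x := by
        rw [← hρf]
        exact e2.comp_hasDerivAt x e3
      have e5 : HasDerivAt (fun s : ℝ => (S 1)⁻¹ (f (s, y)))
          (fderiv ℝ (fun p : P2 => (S 1)⁻¹ p) (f (x, y))
            (ρ * Real.cos (φ (f (x, y))), ρ * Real.sin (φ (f (x, y))))) x :=
        e1.comp_hasDerivAt x e4
      -- z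
      obtain ⟨z, hz⟩ : ∃ z, z = (S 1)⁻¹ (f (x, y)) := ⟨_, rfl⟩
      have hSz : S 1 z = f (x, y) := by rw [hz]; exact (S 1).apply_symm_apply _
      have e6 := hSd 1 z.1 z.2
      have hz' : (z.1, z.2) = z := rfl
      rw [hz', hSz] at e6
      have e7 : HasFDerivAt (fun p : P2 => (S 1)⁻¹ p)
          (fderiv ℝ (fun p : P2 => (S 1)⁻¹ p) (f (x, y))) (S 1 (z.1, z.2)) := by
        rw [hz', hSz]
        exact e1
      have e8 := e7.comp_hasDerivAt z.1 e6
      have e9 : ((fun p : P2 => (S 1)⁻¹ p) ∘ fun s : ℝ => S 1 (s, z.2)) =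
          fun s : ℝ => ((s, z.2) : P2) := by
        funext s
        exact (S 1).symm_apply_apply _
      rw [e9] at e8
      have e10 : HasDerivAt (fun s : ℝ => ((s, z.2) : P2)) ((1 : ℝ), (0 : ℝ)) z.1 :=
        (hasDerivAt_id' z.1).prodMk (hasDerivAt_const z.1 z.2)
      have e11 := e8.unique e10
      have e12 : (ρ * Real.cos (φ (f (x, y))), ρ * Real.sin (φ (f (x, y)))) =
          ρ • XF (fun p => Real.smoothTransition 1 * φ p) (f (x, y)) := by
        unfold XF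
        rw [Real.smoothTransition.one_of_one_le le_rfl]
        simp only [one_mul]
        rfl
      rw [e12, map_smul, e11] at e5
      have e13 : HasDerivAt (fun s : ℝ => ((S 1)⁻¹ (f (s, y))).2)
          (ContinuousLinearMap.snd ℝ ℝ ℝ (ρ • ((1 : ℝ), (0 : ℝ)))) x :=
        (ContinuousLinearMap.snd ℝ ℝ ℝ).hasFDerivAt.comp_hasDerivAt x e5
      have e14 : ContinuousLinearMap.snd ℝ ℝ ℝ (ρ • ((1 : ℝ), (0 : ℝ))) = 0 := by simp
      rw [e14] at e13
      exact e13
    have hconst : ∀ a b : ℝ, ((S 1)⁻¹ (f (a, y))).2 = ((S 1)⁻¹ (f (b, y))).2 := by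
      intro a b
      exact is_const_of_deriv_eq_zero (fun x => (hder x).differentiableAt)
        (fun x => (hder x).deriv) a b
    rw [hconst x (-R - 1)]
    have h2 : f (-R - 1, y) = (-R - 1, y) := by
      apply hfR
      rw [Prod.norm_def]
      refine le_max_of_le_left ?_
      rw [Real.norm_eq_abs, abs_of_neg (by linarith)]
      linarith
    have h3 : S 1 (-R - 1, y) = (-R - 1, y) := hfix 1 _ (Or.inl (by simp only; linarith))
    have h4 : (S 1)⁻¹ (-R - 1, y) = (-R - 1, y) := by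
      rw [Equiv.Perm.inv_eq_iff_eq, h3]
    rw [h2, h4]
  have hS1y : ∀ y : ℝ, (S 1 (X₀, y)).2 = y := by
    intro y
    have h2 := claim (S 1 (X₀, y))
    have h3 : f (S 1 (X₀, y)) = S 1 (X₀, y) := by
      apply hfR
      rw [Prod.norm_def]
      refine le_max_of_le_left ?_
      rw [Real.norm_eq_abs]
      exact (hXr 1 y).le.trans (le_abs_self _)
    have h4 : (S 1)⁻¹ (S 1 (X₀, y)) = (X₀, y) := (S 1).symm_apply_apply _
    rw [h3, h4] at h2
    exact h2.symm
  have hF'2 := hF'1 hS1y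
  obtain ⟨⟨hF's, hF'si, R', hR'⟩, hF'a, hF'b⟩ := hF'
  -- g
  have hF'DC : F' 1 ∈ DC := ⟨⟨hF's.comp (contDiff_const.prodMk contDiff_id),
    hF'si.comp (contDiff_const.prodMk contDiff_id)⟩, R', hR' 1⟩
  have hfDC : f ∈ DC := ⟨⟨hf1, hf2⟩, R₂, hR₂⟩
  obtain ⟨g, hg⟩ : ∃ g : Equiv.Perm P2, g = f⁻¹ * F' 1 := ⟨_, rfl⟩
  have hgDC : g ∈ DC := by rw [hg]; exact DC.mul_mem (DC.inv_mem hfDC) hF'DC
  have hgLP : g ∈ LP := by
    refine ⟨hgDC, fun p => ?_⟩
    have h2 : f (g p) = F' 1 p := by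
      rw [hg, Equiv.Perm.mul_apply]
      exact f.apply_symm_apply _
    rw [← claim (g p), h2]
    exact hF'2 p
  obtain ⟨⟨hg1, hg2⟩, Rg, hRg⟩ := hgDC
  obtain ⟨u, hu⟩ : ∃ u : P2 → ℝ, ∀ p, u p = (g p).1 - p.1 := ⟨fun p => (g p).1 - p.1, fun _ => rfl⟩
  have huS : ContDiff ℝ ∞ u := by
    have : u = fun p => (g p).1 - p.1 := funext hu
    rw [this]
    exact (contDiff_fst.comp hg1).sub contDiff_fst
  have hu0 : ∀ p, Rg < ‖p‖ → u p = 0 := by
    intro p hp
    rw [hu, hRg p hp, sub_self]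
  have hud : ∀ x y, HasDerivAt (fun s => u (s, y)) (deriv (fun s => u (s, y)) x) x := by
    intro x y
    have : ContDiff ℝ ∞ (fun s => u (s, y)) := huS.comp (contDiff_id.prodMk contDiff_const)
    exact (this.differentiable (by simp)).differentiableAt.hasDerivAt
  have hud1 : ∀ x y, -1 < deriv (fun s => u (s, y)) x := by
    intro x y
    have h2 := lp_pos hgLP x y
    have h3 : (fun s => (g (s, y)).1) = fun s => s + u (s, y) := by
      funext s
      rw [hu]
      ring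
    have h4 : HasDerivAt (fun s => s + u (s, y)) (1 + deriv (fun s => u (s, y)) x) x :=
      (hasDerivAt_id' x).add (hud x y)
    rw [h3, h4.deriv] at h2
    linarith
  obtain ⟨C, hC⟩ : ∃ C : ℝ, ∀ p, |u p| ≤ C := by
    obtain ⟨C, hC⟩ := (isCompact_closedBall (0 : P2) Rg).exists_bound_of_continuousOn
      huS.continuous.continuousOn
    refine ⟨max C 0, fun p => ?_⟩
    by_cases hp : ‖p‖ ≤ Rg
    · have := hC p (mem_closedBall_zero_iff.2 hp)
      rw [Real.norm_eq_abs] at this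
      exact this.trans (le_max_left _ _)
    · rw [hu0 p (not_le.1 hp), abs_zero]
      exact le_max_right _ _
  obtain ⟨G, hGS, hG⟩ := hfam hL (fun q => Real.smoothTransition q.2.1 * u (q.1, q.2.2))
    ((Real.smoothTransition.contDiff.comp (contDiff_fst.comp contDiff_snd)).mul
      (huS.comp (contDiff_fst.prodMk (contDiff_snd.comp contDiff_snd))))
    (by
      rintro x ⟨t, y⟩
      have h2 : HasDerivAt (fun s => Real.smoothTransition t * u (s, y))
          (Real.smoothTransition t * deriv (fun s => u (s, y)) x) x := (hud x y).const_mul _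
      simp only
      rw [h2.deriv]
      have h3 := Real.smoothTransition.nonneg t
      have h4 := Real.smoothTransition.le_one t
      have h5 := hud1 x y
      rcases h3.eq_or_lt with h6 | h6
      · rw [← h6]; norm_num
      · nlinarith)
    (by
      rintro ⟨t, y⟩
      refine ⟨C, fun x => ?_⟩
      simp only
      rw [abs_mul, abs_of_nonneg (Real.smoothTransition.nonneg t)]
      calc Real.smoothTransition t * |u (x, y)| ≤ 1 * |u (x, y)| :=
            mul_le_mul_of_nonneg_right (Real.smoothTransition.le_one t) (abs_nonneg _)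
        _ ≤ C := by rw [one_mul]; exact hC _)
  simp only at hG
  have hG0 : ∀ t, t ≤ 0 → G t = 1 := by
    intro t ht
    refine Equiv.ext fun p => ?_
    rw [hG, Real.smoothTransition.zero_of_nonpos ht]
    ext <;> simp
  have hG1 : ∀ t, 1 ≤ t → G t = g := by
    intro t ht
    refine Equiv.ext fun p => ?_
    rw [hG, Real.smoothTransition.one_of_one_le ht]
    refine Prod.ext ?_ ?_
    · simp only
      rw [show ((p.1, p.2) : P2) = p from rfl, hu]
      ring
    · exact (hgLP.2 p).symm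
  have hGR : ∀ t p, Rg < ‖p‖ → G t p = p := by
    intro t p hp
    rw [hG, show ((p.1, p.2) : P2) = p from rfl, hu0 p hp]
    ext <;> simp
  refine ⟨fun t => F' t * (G t)⁻¹, ⟨⟨?_, ?_, max R' Rg, ?_⟩, ?_, ?_⟩, ?_, ?_⟩
  · exact (SF.mul (F := F') ⟨hF's, hF'si⟩ hGS.inv).1
  · exact (SF.mul (F := F') ⟨hF's, hF'si⟩ hGS.inv).2
  · intro t p hp
    have h2 : (G t)⁻¹ p = p := by
      rw [Equiv.Perm.inv_eq_iff_eq, hGR t p (lt_of_le_of_lt (le_max_right _ _) hp)]
    rw [Equiv.Perm.mul_apply, h2, hR' t p (lt_of_le_of_lt (le_max_left _ _) hp)]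
  · intro t ht
    simp only
    rw [hF'a t ht, hG0 t ht, hG0 0 le_rfl]
  · intro t ht
    simp only
    rw [hF'b t ht, hG1 t ht, hG1 1 le_rfl]
  · simp only
    rw [hF'0, hG0 0 le_rfl]
    simp
  · simp only
    rw [hG1 1 le_rfl, hg]
    group

end Pool.Agent.W589.DQ
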