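import Pool.Agent.W133.DQ.StB

set_option autoImplicit false

open scoped ContDiff
open Set Filter Topology

namespace Pool.Agent.W589.DQ

open Pool.Agent.W133.DQ

/-- derivatives of a translate -/
theorem nb_translate {r : ℕ} {u : P2 → ℝ} {b : ℝ} (h : NB r u b) (a : P2) :
    NB r (fun p => u (p + a)) b := by
  intro p
  rw [iteratedFDeriv_comp_add_right]
  exact h _

/-- derivatives of a dilate -/
theorem nb_dil {A : ℝ} (hA : 0 < A) {v : P2 → ℝ} (hv : ContDiff ℝ ∞ v) {r : ℕ} {b : ℝ}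
    (h : NB r v b) : NB r (dil A v) (A ^ (1 - (r : ℤ)) * b) := by
  intro p
  let g : P2 →L[ℝ] P2 := A⁻¹ • ContinuousLinearMap.id ℝ P2
  have hg : ‖g‖ ≤ A⁻¹ := by
    refine g.opNorm_le_bound (inv_nonneg.mpr hA.le) fun x => ?_
    show ‖A⁻¹ • x‖ ≤ A⁻¹ * ‖x‖
    rw [norm_smul, Real.norm_of_nonneg (inv_nonneg.mpr hA.le)]
  have h1 : dil A v = A • (v ∘ g) := by
    funext q
    show A * v (q.1 / A, q.2 / A) = A * v (A⁻¹ • q)
    congr 2
    ext
    · show q.1 / A = A⁻¹ * q.1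
      rw [div_eq_inv_mul]
    · show q.2 / A = A⁻¹ * q.2
      rw [div_eq_inv_mul]
  have hr : ((r : ℕ∞) : WithTop ℕ∞) ≤ ∞ := by
    exact_mod_cast le_top
  have hvr : ContDiff ℝ r v := hv.of_le hr
  rw [h1, iteratedFDeriv_const_smul_apply ((hvr.comp g.contDiff).contDiffAt),
    g.iteratedFDeriv_comp_right hvr p le_rfl, norm_smul, Real.norm_of_nonneg hA.le]
  have h2 := ContinuousMultilinearMap.norm_compContinuousLinearMap_le
    (iteratedFDeriv ℝ r v (g p)) (fun _ : Fin r => g)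
  have h3 : ∏ _i : Fin r, ‖g‖ ≤ (A⁻¹) ^ r := by
    rw [Finset.prod_const, Finset.card_univ, Fintype.card_fin]
    exact pow_le_pow_left₀ (norm_nonneg _) hg r
  have h4 : 0 ≤ b := (norm_nonneg _).trans (h p)
  have h5 : A ^ (1 - (r : ℤ)) * b = A * (b * (A⁻¹) ^ r) := by
    rw [zpow_sub₀ hA.ne', zpow_one, zpow_natCast, inv_pow]
    ring
  rw [h5]
  refine mul_le_mul_of_nonneg_left (h2.trans ?_) hA.le
  exact mul_le_mul (h _) h3 (Finset.prod_nonneg fun _ _ => norm_nonneg _) h4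

/-- transfer of bounds from `0 < x < 1` to everywhere. -/
theorem nb_periodic {r : ℕ} {f G : P2 → ℝ} {B : ℝ} (hf : ContDiff ℝ ∞ f)
    (hper : ∀ p : P2, f (p.1 + 1, p.2) = f p) (heq : ∀ p : P2, 0 < p.1 → p.1 < 1 → f p = G p)
    (hG : NB r G B) : NB r f B := by
  have hr : ((r : ℕ∞) : WithTop ℕ∞) ≤ ∞ := by
    exact_mod_cast le_top
  have hcont : Continuous (iteratedFDeriv ℝ r f) := hf.continuous_iteratedFDeriv hr
  -- inside the strip
  have h1 : ∀ p : P2, 0 < p.1 → p.1 < 1 → ‖iteratedFDeriv ℝ r f p‖ ≤ B := by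
    intro p hp0 hp1
    have ho : {q : P2 | 0 < q.1 ∧ q.1 < 1} ∈ 𝓝 p :=
      ((isOpen_lt continuous_const continuous_fst).inter
        (isOpen_lt continuous_fst continuous_const)).mem_nhds ⟨hp0, hp1⟩
    have he : f =ᶠ[𝓝 p] G := by
      filter_upwards [ho] with q hq
      exact heq q hq.1 hq.2
    have h2 : iteratedFDeriv ℝ r f p = iteratedFDeriv ℝ r G p :=
      (he.iteratedFDeriv ℝ r).eq_of_nhds
    rw [h2]
    exact hG p
  -- closed strip
  have h2 : ∀ p : P2, 0 ≤ p.1 → p.1 < 1 → ‖iteratedFDeriv ℝ r f p‖ ≤ B := by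
    intro p hp0 hp1
    have ht : Tendsto (fun s : ℝ => ‖iteratedFDeriv ℝ r f (p.1 + s, p.2)‖) (𝓝[>] 0)
        (𝓝 ‖iteratedFDeriv ℝ r f p‖) := by
      have hc : Continuous (fun s : ℝ => ‖iteratedFDeriv ℝ r f (p.1 + s, p.2)‖) := by
        exact (hcont.comp ((continuous_const.add continuous_id).prodMk continuous_const)).norm
      have h3 := (hc.tendsto 0).mono_left (nhdsWithin_le_nhds (s := Ioi (0 : ℝ)))
      simpa using h3
    refine le_of_tendsto ht ?_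
    have h4 : ∀ᶠ s : ℝ in 𝓝[>] 0, s < 1 - p.1 :=
      nhdsWithin_le_nhds (Iio_mem_nhds (by linarith))
    filter_upwards [h4, self_mem_nhdsWithin] with s hs hs0
    have hs0' : (0 : ℝ) < s := hs0
    exact h1 _ (by show 0 < p.1 + s; linarith) (by show p.1 + s < 1; linarith)
  -- periodicity
  have h3 : ∀ (n : ℕ) (p : P2), iteratedFDeriv ℝ r f (p.1 + n, p.2) = iteratedFDeriv ℝ r f p := by
    intro n
    induction n with
    | zero => intro p; simp
    | succ n ih =>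
      intro p
      have h5 : (fun z : P2 => f (z + ((1 : ℝ), (0 : ℝ)))) = f := by
        funext z
        have : z + ((1 : ℝ), (0 : ℝ)) = (z.1 + 1, z.2) := by ext <;> simp
        rw [this]
        exact hper z
      have h6 := iteratedFDeriv_comp_add_right (𝕜 := ℝ) (f := f) r ((1 : ℝ), (0 : ℝ)) (p.1 + n, p.2)
      rw [h5] at h6
      have h7 : ((p.1 + (n : ℝ), p.2) : P2) + ((1 : ℝ), (0 : ℝ)) = (p.1 + ((n + 1 : ℕ) : ℝ), p.2) := by
        ext
        · simp; ring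
        · simp
      rw [h7] at h6
      rw [← h6]
      exact ih p
  intro p
  have h8 : iteratedFDeriv ℝ r f p = iteratedFDeriv ℝ r f (Int.fract p.1, p.2) := by
    have h9 := Int.fract_add_floor p.1
    rcases Int.eq_nat_or_neg ⌊p.1⌋ with ⟨n, hn | hn⟩
    · have h10 := h3 n (Int.fract p.1, p.2)
      have h11 : ((Int.fract p.1 + (n : ℝ), p.2) : P2) = p := by
        rw [hn] at h9
        ext
        · simpa using h9
        · rfl
      simp only at h10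
      rw [h11] at h10
      exact h10
    · have h10 := h3 n p
      have h11 : ((p.1 + (n : ℝ), p.2) : P2) = (Int.fract p.1, p.2) := by
        rw [hn] at h9
        push_cast at h9
        ext
        · simp only; linarith
        · rfl
      rw [h11] at h10
      exact h10.symm
  rw [h8]
  exact h2 _ (Int.fract_nonneg _) (Int.fract_lt_one _)

/-- the factors of the chain in `SR`. -/
noncomputable def ww (A : ℕ) (v : P2 → ℝ) (i : ℕ) (q : P2) : ℝ :=
  dil A v (q.1 + ((i : ℝ) - A - 2), q.2)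

theorem SR_eq (A : ℕ) (v : P2 → ℝ) (p : P2) (h0 : 0 ≤ p.1) (h1 : p.1 < 1) :
    SR A v p = chain (ww A v) (2 * A + 5) p := by
  show chain (fun i q => dil A v (q.1 + ((i : ℝ) - A - 2), q.2)) (2 * A + 5) (Int.fract p.1, p.2) = _
  rw [Int.fract_eq_self.mpr ⟨h0, h1⟩]
  rfl

theorem dil_smooth (A : ℝ) {v : P2 → ℝ} (hv : ContDiff ℝ ∞ v) : ContDiff ℝ ∞ (dil A v) := by
  unfold dil
  exact contDiff_const.mul (hv.comp ((contDiff_fst.div_const _).prodMk (contDiff_snd.div_const _)))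

theorem ww_eq (A : ℕ) (v : P2 → ℝ) (i : ℕ) :
    ww A v i = fun q => dil A v (q + ((i : ℝ) - A - 2, (0 : ℝ))) := by
  funext q
  unfold ww
  congr 1
  ext <;> simp

theorem ww_smooth (A : ℕ) {v : P2 → ℝ} (hv : ContDiff ℝ ∞ v) (i : ℕ) :
    ContDiff ℝ ∞ (ww A v i) := by
  rw [ww_eq]
  exact (dil_smooth _ hv).comp (contDiff_id.add contDiff_const)

theorem ww_nb {A : ℕ} (hA : 1 ≤ A) {v : P2 → ℝ} (hv : ContDiff ℝ ∞ v) {r : ℕ} {b : ℝ}
    (h : NB r v b) (i : ℕ) : NB r (ww A v i) ((A : ℝ) ^ (1 - (r : ℤ)) * b) := by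
  rw [ww_eq]
  exact nb_translate (nb_dil (by exact_mod_cast hA) hv h) _

theorem r2 (h0 : S_CH0) (h2 : S_CH2) (hR0 : S_R0) : S_R2 := by
  refine ⟨14, 2, by norm_num, by norm_num, fun A hA => ?_⟩
  have hA' : (1 : ℝ) ≤ A := by exact_mod_cast hA
  obtain ⟨δ₁, C₁, hδ₁, hC₁, H0⟩ := hR0 A hA
  obtain ⟨δ₂, hδ₂, H2⟩ := h2 (2 * A + 5)
  obtain ⟨_, _, H3⟩ := h0 (2 * A + 5)
  refine ⟨min δ₁ δ₂, lt_min hδ₁ hδ₂, fun r m hr => ?_⟩
  obtain ⟨c, hc, H4⟩ := H2 r m hr
  refine ⟨max c (C₁ * min δ₁ δ₂), le_max_of_le_left hc, fun v b hv hs hv1 hlow hb hvr => ?_⟩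
  have hm : 0 ≤ m := (norm_nonneg _).trans (hlow 0 (by omega) 0)
  have hmono : ∀ {j : ℕ} {f : P2 → ℝ} {x y : ℝ}, NB j f x → x ≤ y → NB j f y :=
    fun h hxy p => (h p).trans hxy
  have hpow : ∀ j : ℕ, 1 ≤ j → (A : ℝ) ^ (1 - (j : ℤ)) ≤ 1 := by
    intro j hj
    exact zpow_le_one_of_nonpos₀ hA' (by omega)
  obtain ⟨hsm, hper, _, hsup, _, _⟩ := H0 v hv hs (min δ₁ δ₂) (le_min hδ₁.le hδ₂.le)
    (min_le_left _ _) hv1
  obtain ⟨H5, H6⟩ := H4 (ww A v) ((A : ℝ) ^ (1 - (r : ℤ)) * b) (ww_smooth A hv)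
    (mul_nonneg (zpow_nonneg (by linarith) _) hb)
    (fun i _ => hmono (ww_nb hA hv hv1 i) (by simp))
    (fun i _ j hj hjr => hmono (ww_nb hA hv (hlow j hjr) i)
      (mul_le_of_le_one_left hm (hpow j hj)))
    (fun i _ => ww_nb hA hv hvr i)
  have hG : ∀ p : P2, 0 < p.1 → p.1 < 1 → SR A v p = chain (ww A v) (2 * A + 5) p :=
    fun p h0 h1 => SR_eq A v p h0.le h1
  constructor
  · have h7 := nb_periodic hsm hper hG H5
    refine hmono h7 ?_
    have h8 : (A : ℝ) ^ (2 - (r : ℤ)) = A * (A : ℝ) ^ (1 - (r : ℤ)) := by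
      rw [show (2 - (r : ℤ)) = 1 + (1 - (r : ℤ)) by ring, zpow_add₀ (by linarith), zpow_one]
    have h9 : (0 : ℝ) ≤ (A : ℝ) ^ (1 - (r : ℤ)) * b * 2 ^ r :=
      mul_nonneg (mul_nonneg (zpow_nonneg (by linarith) _) hb) (by positivity)
    have h10 : (2 * ((2 * A + 5 : ℕ) : ℝ)) ≤ 14 * A := by
      push_cast
      linarith
    rw [h8]
    refine add_le_add ?_ (le_max_left _ _)
    calc 2 * ((2 * A + 5 : ℕ) : ℝ) * 2 ^ r * ((A : ℝ) ^ (1 - (r : ℤ)) * b)
        = (2 * ((2 * A + 5 : ℕ) : ℝ)) * ((A : ℝ) ^ (1 - (r : ℤ)) * b * 2 ^ r) := by ring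
      _ ≤ (14 * A) * ((A : ℝ) ^ (1 - (r : ℤ)) * b * 2 ^ r) := mul_le_mul_of_nonneg_right h10 h9
      _ = 14 * 2 ^ r * (A * (A : ℝ) ^ (1 - (r : ℤ))) * b := by ring
  · intro j hj
    rcases Nat.eq_zero_or_pos j with rfl | hj0
    · intro p
      rw [norm_iteratedFDeriv_zero, Real.norm_eq_abs]
      exact (hsup p).trans (le_max_right _ _)
    · exact hmono (nb_periodic hsm hper hG (H6 j hj0 hj)) (le_max_left _ _)

end Pool.Agent.W589.DQ
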