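import Pool.Agent.W133.DQ.StB

set_option autoImplicit false

open scoped ContDiff
open Set Filter Topology

namespace Pool.Agent.W589.DQ

open Pool.Agent.W133.DQ

theorem core (hF : S_FLOW) (Y : P2 → P2) (hY : ContDiff ℝ ∞ Y) (ρ : ℝ) (hρ : 0 < ρ) :
    ∃ σ ∈ DC, ∀ γ : ℝ → P2, (∀ t ∈ Icc (0 : ℝ) 1, HasDerivAt γ (Y (γ t)) t) →
      (∀ t ∈ Icc (0 : ℝ) 1, ‖γ t‖ ≤ ρ) → σ (γ 0) = γ 1 := by
  let χ : ContDiffBump (0 : P2) := ⟨ρ, ρ + 1, hρ, by linarith⟩
  let X : P2 → P2 := fun p => χ p • Y p
  have hXs : ContDiff ℝ ∞ X := χ.contDiff.smul hY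
  have hXc : HasCompactSupport X := χ.hasCompactSupport.smul_right
  obtain ⟨K, hK⟩ := hXs.lipschitzWith_of_hasCompactSupport hXc (by simp)
  obtain ⟨Φ, h0, hadd, hsm, hder⟩ := hF P2 X hXs ⟨K, hK⟩
  have hinv : ∀ t, (Φ t)⁻¹ = Φ (-t) := by
    intro t
    have h1 : Φ t * Φ (-t) = 1 := by rw [← hadd, add_neg_cancel, h0]
    exact inv_eq_of_mul_eq_one_right h1
  have hsm' : ∀ t, ContDiff ℝ ∞ (fun p => Φ t p) := by
    intro t
    have h1 : (fun p : P2 => Φ t p) = (fun q : ℝ × P2 => Φ q.1 q.2) ∘ fun p : P2 => (t, p) := rfl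
    rw [h1]
    exact hsm.comp (contDiff_const.prodMk contDiff_id)
  refine ⟨Φ 1, ⟨⟨hsm' 1, ?_⟩, ρ + 1, ?_⟩, ?_⟩
  · rw [hinv]
    exact hsm' _
  · intro p hp
    have hXp : X p = 0 := by
      have h1 : χ p = 0 := χ.zero_of_le_dist (by rw [dist_zero_right]; exact hp.le)
      show χ p • Y p = 0
      rw [h1, zero_smul]
    have h2 : EqOn (fun s => Φ s p) (fun _ => p) (Icc 0 1) := by
      refine ODE_solution_unique (v := fun _ => X) (K := K) (fun _ => hK) ?_ ?_ ?_ ?_ ?_
      · exact fun t _ => (hder t p).continuousAt.continuousWithinAt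
      · exact fun t _ => (hder t p).hasDerivWithinAt
      · exact continuousOn_const
      · intro t _
        show HasDerivWithinAt (fun _ : ℝ => p) (X p) (Ici t) t
        rw [hXp]
        exact hasDerivWithinAt_const _ _ _
      · show Φ 0 p = p
        rw [h0]; rfl
    exact h2 (right_mem_Icc.mpr zero_le_one)
  · intro γ hγ hn
    have h2 : EqOn (fun s => Φ s (γ 0)) γ (Icc 0 1) := by
      refine ODE_solution_unique (v := fun _ => X) (K := K) (fun _ => hK) ?_ ?_ ?_ ?_ ?_
      · exact fun t _ => (hder t _).continuousAt.continuousWithinAt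
      · exact fun t _ => (hder t _).hasDerivWithinAt
      · exact fun t ht => (hγ t ht).continuousAt.continuousWithinAt
      · intro t ht
        have ht' : t ∈ Icc (0 : ℝ) 1 := ⟨ht.1, ht.2.le⟩
        have h1 : χ (γ t) = 1 := χ.one_of_mem_closedBall (by
          rw [mem_closedBall_zero_iff]; exact hn t ht')
        have h3 : X (γ t) = Y (γ t) := by
          show χ (γ t) • Y (γ t) = Y (γ t)
          rw [h1, one_smul]
        show HasDerivWithinAt γ (X (γ t)) (Ici t) t
        rw [h3]
        exact (hγ t ht').hasDerivWithinAt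
      · show Φ 0 (γ 0) = γ 0
        rw [h0]; rfl
    exact h2 (right_mem_Icc.mpr zero_le_one)

theorem trdc (hF : S_FLOW) : S_TRDC := by
  refine ⟨fun R v => ?_, fun R a ha => ?_⟩
  · obtain ⟨σ, hσ, h⟩ := core hF (fun _ => v) contDiff_const (|R| + ‖v‖ + 1) (by positivity)
    refine ⟨σ, hσ, fun p hp => ?_⟩
    have h1 := h (fun t => p + t • v) (fun t _ => by
      have := ((hasDerivAt_id t).smul_const v).const_add p
      simpa using this) (fun t ht => by
      have h2 : ‖t • v‖ ≤ ‖v‖ := by
        rw [norm_smul, Real.norm_of_nonneg ht.1]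
        exact mul_le_of_le_one_left (norm_nonneg _) ht.2
      have h3 := norm_add_le p (t • v)
      have h4 := le_abs_self R
      linarith)
    simpa using h1
  · obtain ⟨σ, hσ, h⟩ := core hF (fun p => Real.log a • p) (contDiff_id.const_smul (Real.log a))
      (|R| * max 1 a + 1) (by positivity)
    refine ⟨σ, hσ, fun p hp => ?_⟩
    have h1 := h (fun t => Real.exp (t * Real.log a) • p) (fun t _ => by
      have h5 : HasDerivAt (fun t : ℝ => Real.exp (t * Real.log a))
          (Real.exp (t * Real.log a) * Real.log a) t := by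
        have := ((hasDerivAt_id t).mul_const (Real.log a)).exp
        simpa using this
      have h6 := h5.smul_const p
      have h7 : (Real.exp (t * Real.log a) * Real.log a) • p
          = Real.log a • (Real.exp (t * Real.log a) • p) := by
        rw [smul_smul, mul_comm]
      rw [h7] at h6
      exact h6) (fun t ht => by
      have h2 : Real.exp (t * Real.log a) ≤ max 1 a := by
        rcases le_or_gt 1 a with h1 | h1
        · have h3 : t * Real.log a ≤ Real.log a := mul_le_of_le_one_left (Real.log_nonneg h1) ht.2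
          calc Real.exp (t * Real.log a) ≤ Real.exp (Real.log a) := Real.exp_le_exp.mpr h3
            _ = a := Real.exp_log ha
            _ ≤ max 1 a := le_max_right _ _
        · have h3 : t * Real.log a ≤ 0 := mul_nonpos_of_nonneg_of_nonpos ht.1
            (Real.log_nonpos ha.le h1.le)
          calc Real.exp (t * Real.log a) ≤ Real.exp 0 := Real.exp_le_exp.mpr h3
            _ = 1 := Real.exp_zero
            _ ≤ max 1 a := le_max_left _ _
      have h4 := le_abs_self R
      rw [norm_smul, Real.norm_of_nonneg (Real.exp_pos _).le]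
      calc Real.exp (t * Real.log a) * ‖p‖ ≤ max 1 a * |R| :=
            mul_le_mul h2 (hp.trans h4) (norm_nonneg _) (by positivity)
        _ ≤ |R| * max 1 a + 1 := by linarith [mul_comm (max 1 a) |R|])
    simpa [Real.exp_log ha] using h1

end Pool.Agent.W589.DQ
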